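import Pool.Agent.Lib.MP_7ab245_nt.Solv.SX.Defs

/-! Group form of the reduction to almost simple groups (definitions). -/

set_option autoImplicit false

namespace Pool.Agent.Lib.MP_7ab245_nt.Solv.SX

section
variable {G Γ W : Type} [Group G] [Group Γ] [AddCommGroup W] [Module ℚ W]

/-- the line of `ρ g w` is the line of `ρ g' w` (up to sign) -/
def SameL (ρ : Representation ℚ G W) (w : W) (g g' : G) : Prop :=
  ρ g w = ρ g' w ∨ ρ g w = -ρ g' w

/-- `x` normalises `T` -/
def Nrm (T : Subgroup Γ) (x : Γ) : Prop := ∀ t ∈ T, x * t * x⁻¹ ∈ T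

/-- Theorem B in group form as a hypothesis, for at most `R` vectors, with exponent `r - 1 / D` -/
def HypB (ρ : Representation ℚ G W) (w : W) (R D : ℕ) : Prop :=
  ∀ r : ℕ, 1 ≤ r → r ≤ R → ∀ u : Fin r → G, LinearIndependent ℚ (fun i => ρ (u i) w) →
    osz ρ w ^ (r * D - 1) < tsz ρ w u ^ D

end

end Pool.Agent.Lib.MP_7ab245_nt.Solv.SX
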