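import Pool.Agent.Lib.MP_7ab245_nt.Solv.SX.ASDefs
import Pool.Agent.Lib.MP_7ab245_nt.Solv.GY.Y27

/-! Group form of the reduction to almost simple groups. -/

set_option autoImplicit false

namespace Pool.Agent.Lib.MP_7ab245_nt.Solv.SX

/-- Reduction to almost simple groups, group form. -/
theorem groupAS (κ : ℕ) : ∃ n₀ R D : ℕ, 1 ≤ D ∧ ∀ {G Γ W : Type} [Group G] [Finite G] [Group Γ]
    [AddCommGroup W] [Module ℚ W] (ρ : Representation ℚ G W) (w : W) (φ : G →* Γ),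
    IsQ ρ w φ → n₀ ≤ osz ρ w → HypB ρ w R D →
    (∀ N : Subgroup Γ, N.Normal → Group.IsSolvable N → N = ⊥) →
    -- every subgroup of `Γ` strictly containing the stabiliser of the line has small index
    (∀ S : Subgroup Γ, (∀ g, SameL ρ w g 1 → φ g ∈ S) → (∃ g, φ g ∈ S ∧ ¬ SameL ρ w g 1) →
      2 * S.index ^ κ ≤ osz ρ w) ∧
    -- the simple group
    ∃ T : Subgroup Γ, NonAb T ∧
      (∀ R' : Subgroup Γ, R' ≤ T → (∀ t ∈ T, ∀ x ∈ R', t * x * t⁻¹ ∈ R') → R' = ⊥ ∨ R' = T) ∧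
      (∃ g, φ g ∈ T ∧ ¬ SameL ρ w g 1) ∧ osz ρ w ^ κ < Nat.card (MulAut T) ∧
      (∀ g, SameL ρ w g 1 → Nrm T (φ g)) ∧
      -- trivial centraliser on the lines moved by `T`
      ∀ g, Nrm T (φ g) → (∀ t s, φ t ∈ T → Nrm T (φ s) → SameL ρ w (g * t * s) (t * g * s)) →
        ∀ s, Nrm T (φ s) → SameL ρ w (g * s) s :=
  GY.groupAS' κ

end Pool.Agent.Lib.MP_7ab245_nt.Solv.SX
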