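import Pool.Agent.Lib.MP_7ab245_nt.Solv.SX.Defs

set_option autoImplicit false

namespace Pool.Agent.Lib.MP_7ab245_nt.Solv.SX

/-- conjugation by an element which normalises `T` -/
private def x10conj {Γ : Type*} [Group Γ] (T : Subgroup Γ) (k : Γ) (hk : cj k T = T) : MulAut T where
  toFun t := ⟨k * t * k⁻¹, by
    have : k * t * k⁻¹ ∈ cj k T := mem_cj.2 ⟨t, t.2, rfl⟩
    rwa [hk] at this⟩
  invFun t := ⟨k⁻¹ * t * k, by
    have : (t : Γ) ∈ cj k T := by rw [hk]; exact t.2
    exact mem_cj'.1 this⟩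
  left_inv t := by
    apply Subtype.ext
    simp [mul_assoc]
  right_inv t := by
    apply Subtype.ext
    simp [mul_assoc]
  map_mul' a b := by
    apply Subtype.ext
    simp [mul_assoc]

/-- Case 2a: at most two conjugates of `T` move the line of `w`.  Take `g` with `φ g ∈ T`, `ρ g w ≠ ± w`, `u = ![1, g]`.
`w` and `ρ g w` are linearly independent: `w ≠ 0` (otherwise `ρ g w = w`), and `ρ g w = c w` gives `c ^ orderOf g = 1`, so `c = ±1`.
`C' = H1 ρ w ⊓ (centralizer T).comap φ`: `[G : H1 ρ w] ≤ osz ρ w`, and `[H1 ρ w : C'] ≤ 2 |Aut T|`: the group `H1 ρ w` permutes (through `φ` and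
conjugation) the conjugates of `T` that move the line of `w`, so `[H1 : H1 ⊓ φ⁻¹ N(T)] ≤ 2`, and `N(T)/C(T)` embeds in `MulAut T`.
For `c ∈ C'` : `ρ (x * c) w = ± ρ x w` and `ρ (x * c * g) w = ± ρ (x * g) w` (as in `tsz_le`), so there are at most `4 · index C'` pairs. -/
theorem case2a {G Γ W : Type*} [Group G] [Finite G] [Group Γ] [AddCommGroup W] [Module ℚ W]
    (ρ : Representation ℚ G W) (w : W) (φ : G →* Γ) (hφ : IsQ ρ w φ) (T : Subgroup Γ)
    (hm : Moves ρ w φ T)
    (hk : Nat.card {T' : Subgroup Γ // (∃ s, T' = cj s T) ∧ Moves ρ w φ T'} ≤ 2) :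
    ∃ u : Fin 2 → G, LinearIndependent ℚ (fun i => ρ (u i) w) ∧
      tsz ρ w u ≤ 8 * Nat.card (MulAut T) * osz ρ w := by
  classical
  have hΓ : Finite Γ := Finite.of_surjective φ hφ.1
  obtain ⟨g, hgT, hg1, hg2⟩ := hm
  have hker : ∀ ν : G, φ ν = 1 → ρ ν w = w ∨ ρ ν w = -w := by
    intro ν hν
    have := (hφ.2 ν).1 hν 1
    simpa using this
  refine ⟨![1, g], ?_, ?_⟩
  · -- linear independence
    have hw : w ≠ 0 := by
      rintro rfl
      exact hg1 (map_zero _)
    have e1 : (fun i : Fin 2 => ρ (![1, g] i) w) = ![w, ρ g w] := by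
      funext i
      fin_cases i
      · simp
      · simp
    rw [e1, LinearIndependent.pair_iff' hw]
    intro c hc
    have h1 : ∀ i : ℕ, ρ (g ^ i) w = c ^ i • w := by
      intro i
      induction i with
      | zero => simp
      | succ i ihi =>
        rw [pow_succ, map_mul, Module.End.mul_apply, ← hc, map_smul, ihi, smul_smul, pow_succ,
          mul_comm]
    have h2 := h1 (orderOf g)
    rw [pow_orderOf_eq_one, map_one, Module.End.one_apply] at h2
    have h3 : (c ^ orderOf g - 1) • w = 0 := by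
      rw [sub_smul, one_smul, ← h2, sub_self]
    rcases smul_eq_zero.1 h3 with h4 | h4
    · rcases (pow_eq_one_iff_of_ne_zero (orderOf_pos g).ne').1 (sub_eq_zero.1 h4) with h5 | ⟨h5, _⟩
      · rw [h5, one_smul] at hc
        exact hg1 hc.symm
      · rw [h5, neg_smul, one_smul] at hc
        exact hg2 hc.symm
    · exact hw h4
  · -- the count
    set O : Set W := Set.range fun x : G => ρ x w with hO
    set X := {T' : Subgroup Γ // (∃ s, T' = cj s T) ∧ Moves ρ w φ T'} with hX
    have hxv : ∀ v : O, ∃ x : G, ρ x w = v := fun v => v.2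
    choose xv hxv using hxv
    have hhT : ∀ T' : X, ∃ h : G, (∃ h' ∈ H1 ρ w, cj (φ h') T = T'.1) →
        (h ∈ H1 ρ w ∧ cj (φ h) T = T'.1) := by
      intro T'
      by_cases h : ∃ h' ∈ H1 ρ w, cj (φ h') T = T'.1
      · obtain ⟨h', h1, h2⟩ := h
        exact ⟨h', fun _ => ⟨h1, h2⟩⟩
      · exact ⟨1, fun h' => absurd h' h⟩
    choose hT hhT using hhT
    have hl : ∀ γ : Γ, ∃ x : G, φ x = γ := hφ.1
    choose ℓ hℓ using hl
    let Φ : O × X × MulAut T × Bool → (Fin 2 → W) := fun q =>
      ![(q.1 : W), (if q.2.2.2 then (1 : ℚ) else -1) •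
        ρ (xv q.1 * hT q.2.1 * ℓ (q.2.2.1 ⟨φ g, hgT⟩ : T)) w]
    have hsub : (Set.range fun x : G => fun i => ρ (x * (![1, g] : Fin 2 → G) i) w) ⊆
        Set.range Φ := by
      rintro _ ⟨x, rfl⟩
      set v : O := ⟨ρ x w, x, rfl⟩ with hv
      obtain ⟨h, hh⟩ : ∃ h : G, h = (xv v)⁻¹ * x := ⟨_, rfl⟩
      have hhw : ρ h w = w := by
        rw [hh, map_mul, Module.End.mul_apply]
        have h1 : ρ x w = ρ (xv v) w := (hxv v).symm
        rw [h1, ← Module.End.mul_apply, ← map_mul, inv_mul_cancel, map_one, Module.End.one_apply]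
      have hhH : h ∈ H1 ρ w := Or.inl hhw
      have hmov : Moves ρ w φ (cj (φ h) T) := by
        refine ⟨h * g * h⁻¹, ?_, ?_, ?_⟩
        · rw [map_mul, map_mul, map_inv]
          exact mem_cj.2 ⟨φ g, hgT, rfl⟩
        · intro hc
          apply hg1
          have h1 : ρ h⁻¹ w = w := by
            conv_lhs => rw [← hhw]
            rw [← Module.End.mul_apply, ← map_mul, inv_mul_cancel, map_one, Module.End.one_apply]
          rw [map_mul, map_mul, Module.End.mul_apply, Module.End.mul_apply, h1] at hc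
          have h2 := congrArg (ρ h⁻¹) hc
          rw [← Module.End.mul_apply, ← map_mul, inv_mul_cancel, map_one, Module.End.one_apply,
            h1] at h2
          exact h2
        · intro hc
          apply hg2
          have h1 : ρ h⁻¹ w = w := by
            conv_lhs => rw [← hhw]
            rw [← Module.End.mul_apply, ← map_mul, inv_mul_cancel, map_one, Module.End.one_apply]
          rw [map_mul, map_mul, Module.End.mul_apply, Module.End.mul_apply, h1] at hc
          have h2 := congrArg (ρ h⁻¹) hc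
          rw [← Module.End.mul_apply, ← map_mul, inv_mul_cancel, map_one, Module.End.one_apply,
            map_neg, h1] at h2
          exact h2
      set T' : X := ⟨cj (φ h) T, ⟨φ h, rfl⟩, hmov⟩ with hT'
      obtain ⟨hT1, hT2⟩ := hhT T' ⟨h, hhH, rfl⟩
      obtain ⟨k, hkdef⟩ : ∃ k : G, k = (hT T')⁻¹ * h := ⟨_, rfl⟩
      have hkH : k ∈ H1 ρ w := by
        rw [hkdef]
        exact (H1 ρ w).mul_mem ((H1 ρ w).inv_mem hT1) hhH
      have hkT : cj (φ k) T = T := by
        rw [hkdef, map_mul, map_inv, cj_mul]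
        have h1 : cj (φ h) T = cj (φ (hT T')) T := hT2.symm
        rw [h1, ← cj_mul, inv_mul_cancel, cj_one]
      set α : MulAut T := x10conj T (φ k) hkT with hα
      have hαg : ((α ⟨φ g, hgT⟩ : T) : Γ) = φ k * φ g * (φ k)⁻¹ := rfl
      set l : G := ℓ (α ⟨φ g, hgT⟩ : T) with hldef
      have hlφ : φ l = φ k * φ g * (φ k)⁻¹ := by rw [hldef, hℓ, hαg]
      have hν : φ (l⁻¹ * (k * g * k⁻¹)) = 1 := by
        rw [map_mul, map_inv, hlφ, map_mul φ (k * g), map_mul φ k g, map_inv, inv_mul_cancel]
      have hxg : x * g = xv v * hT T' * l * (l⁻¹ * (k * g * k⁻¹)) * k := by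
        rw [hkdef, hh]
        group
      have hfin : ∃ b : Bool, ρ (x * g) w =
          (if b then (1 : ℚ) else -1) • ρ (xv v * hT T' * l) w := by
        rw [hxg, map_mul, Module.End.mul_apply]
        have hk' : ρ k w = w ∨ ρ k w = -w := hkH
        rw [map_mul, Module.End.mul_apply]
        rcases hk' with h1 | h1 <;> rcases hker _ hν with h2 | h2
        · exact ⟨true, by rw [h1, h2]; simp⟩
        · exact ⟨false, by rw [h1, h2, map_neg]; simp⟩
        · exact ⟨false, by rw [h1, map_neg, h2, map_neg]; simp⟩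
        · exact ⟨true, by rw [h1, map_neg, h2, neg_neg]; simp⟩
      obtain ⟨b, hb⟩ := hfin
      refine ⟨⟨v, T', α, b⟩, ?_⟩
      funext i
      fin_cases i
      · simp [Φ, hv]
      · change (if b then (1 : ℚ) else -1) • ρ (xv v * hT T' * l) w = ρ (x * g) w
        exact hb.symm
    have hOfin : Finite O := Set.finite_range _
    have hXfin : Finite X := Subtype.finite
    have h1 : tsz ρ w (![1, g] : Fin 2 → G) ≤ Nat.card (O × X × MulAut T × Bool) := by
      refine (Nat.card_mono (Set.finite_range Φ) hsub).trans ?_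
      exact Finite.card_range_le Φ
    refine h1.trans ?_
    rw [Nat.card_prod, Nat.card_prod, Nat.card_prod]
    have h2 : Nat.card Bool = 2 := by
      rw [Nat.card_eq_fintype_card, Fintype.card_bool]
    rw [h2]
    have h3 : Nat.card O = osz ρ w := rfl
    rw [h3]
    calc osz ρ w * (Nat.card X * (Nat.card (MulAut T) * 2))
        ≤ osz ρ w * (2 * (Nat.card (MulAut T) * 2)) :=
          Nat.mul_le_mul_left _ (Nat.mul_le_mul_right _ hk)
      _ ≤ 8 * Nat.card (MulAut T) * osz ρ w := by
          have : osz ρ w * (2 * (Nat.card (MulAut T) * 2)) = 4 * Nat.card (MulAut T) * osz ρ w := by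
            ring
          rw [this]
          exact Nat.mul_le_mul_right _ (Nat.mul_le_mul_right _ (by norm_num))

end Pool.Agent.Lib.MP_7ab245_nt.Solv.SX
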