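import Pool.Agent.Lib.MP_7ab245_nt.Solv.SX.Defs

set_option autoImplicit false

namespace Pool.Agent.Lib.MP_7ab245_nt.Solv.SX

private theorem mem_normalizer_of_cj {Γ : Type*} [Group Γ] (T : Subgroup Γ) {g s : Γ}
    (h : cj g T = cj s T) : s⁻¹ * g ∈ Subgroup.normalizer (T : Set Γ) := by
  rw [Subgroup.mem_normalizer_iff]
  intro x
  have h1 : g * x * g⁻¹ ∈ cj g T ↔ x ∈ T := by
    rw [mem_cj']
    have : g⁻¹ * (g * x * g⁻¹) * g = x := by group
    rw [this]
  have h2 : g * x * g⁻¹ ∈ cj s T ↔ s⁻¹ * g * x * (s⁻¹ * g)⁻¹ ∈ T := by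
    rw [mem_cj']
    have : s⁻¹ * (g * x * g⁻¹) * s = s⁻¹ * g * x * (s⁻¹ * g)⁻¹ := by group
    rw [this]
  rw [← h1, h, h2]

/-- `[Γ : C(T)] = [Γ : N(T)] [N(T) : C(T)]`, the first factor is the number of conjugates (orbit of `T` under
conjugation), and `N(T)/C(T)` embeds in `MulAut T` (`Subgroup.normalizerMonoidHom`, `Subgroup.normalizerMonoidHom_ker`). -/
theorem index_centralizer_le {Γ : Type*} [Group Γ] [Finite Γ] (T : Subgroup Γ) :
    (Subgroup.centralizer (T : Set Γ)).index ≤ ncj T * Nat.card (MulAut T) := by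
  classical
  have hex : ∀ x : Set.range (fun s : Γ => cj s T), ∃ s : Γ, cj s T = x.1 := fun x => x.2
  choose r hr using hex
  obtain ⟨X, hX⟩ : ∃ X : Γ → Set.range (fun s : Γ => cj s T), ∀ g, X g = ⟨cj g T, g, rfl⟩ :=
    ⟨_, fun _ => rfl⟩
  have hn : ∀ g : Γ, (r (X g))⁻¹ * g ∈ Subgroup.normalizer (T : Set Γ) := by
    intro g
    apply mem_normalizer_of_cj
    rw [hr, hX]
  have : Finite (MulAut T) := inferInstanceAs (Finite (T ≃* T))
  have hcard : Nat.card (Set.range (fun s : Γ => cj s T) × MulAut T) = ncj T * Nat.card (MulAut T) :=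
    Nat.card_prod _ _
  rw [← hcard]
  show Nat.card (Γ ⧸ Subgroup.centralizer (T : Set Γ)) ≤ _
  apply Nat.card_le_card_of_injective
    (fun q : Γ ⧸ Subgroup.centralizer (T : Set Γ) =>
      (X (Quotient.out q), T.normalizerMonoidHom ⟨_, hn (Quotient.out q)⟩))
  intro p q hpq
  have h1 : X (Quotient.out p) = X (Quotient.out q) := congrArg Prod.fst hpq
  have h2 : T.normalizerMonoidHom ⟨_, hn (Quotient.out p)⟩ =
      T.normalizerMonoidHom ⟨_, hn (Quotient.out q)⟩ := congrArg Prod.snd hpq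
  rw [MonoidHom.eq_iff, Subgroup.normalizerMonoidHom_ker, Subgroup.mem_subgroupOf] at h2
  have h3 : ((r (X (Quotient.out q)))⁻¹ * Quotient.out q)⁻¹ *
      ((r (X (Quotient.out p)))⁻¹ * Quotient.out p) ∈ Subgroup.centralizer (T : Set Γ) := h2
  rw [h1] at h3
  have h4 : ((r (X (Quotient.out q)))⁻¹ * Quotient.out q)⁻¹ *
      ((r (X (Quotient.out q)))⁻¹ * Quotient.out p) = (Quotient.out q)⁻¹ * Quotient.out p := by
    group
  rw [h4] at h3
  have h5 : ((Quotient.out q : Γ) : Γ ⧸ Subgroup.centralizer (T : Set Γ)) =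
      ((Quotient.out p : Γ) : Γ ⧸ Subgroup.centralizer (T : Set Γ)) :=
    QuotientGroup.eq.mpr h3
  rw [QuotientGroup.out_eq', QuotientGroup.out_eq'] at h5
  exact h5.symm

end Pool.Agent.Lib.MP_7ab245_nt.Solv.SX
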