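import Pool.Agent.Lib.MP_7ab245_nt.Solv.SX.Defs

set_option autoImplicit false

namespace Pool.Agent.Lib.MP_7ab245_nt.Solv.SX

private def x8perm {G W : Type*} [Group G] [AddCommGroup W]
    [Module ℚ W] (ρ : Representation ℚ G W) (w : W) (g : G) :
    Equiv.Perm (Set.range fun x : G => ρ x w) where
  toFun o := ⟨ρ g o.1, by
    obtain ⟨_, x, rfl⟩ := o
    exact ⟨g * x, by simp [map_mul]⟩⟩
  invFun o := ⟨ρ g⁻¹ o.1, by
    obtain ⟨_, x, rfl⟩ := o
    exact ⟨g⁻¹ * x, by simp [map_mul]⟩⟩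
  left_inv o := by
    apply Subtype.ext
    show ρ g⁻¹ (ρ g o.1) = o.1
    rw [← Module.End.mul_apply, ← map_mul, inv_mul_cancel, map_one]
    rfl
  right_inv o := by
    apply Subtype.ext
    show ρ g (ρ g⁻¹ o.1) = o.1
    rw [← Module.End.mul_apply, ← map_mul, mul_inv_cancel, map_one]
    rfl

/-- `|Γ| ≤ n!`, `n` = size of the orbit `O` of `w`.  `G` acts on the finite set `O = Set.range (fun x => ρ x w)`; an element acting
trivially on `O` is in `ker φ`; so `Nat.card Γ = Nat.card (G ⧸ ker φ) ≤ Nat.card (Equiv.Perm O)`. -/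
theorem card_le_factorial {G Γ W : Type*} [Group G] [Finite G] [Group Γ] [AddCommGroup W]
    [Module ℚ W] (ρ : Representation ℚ G W) (w : W) (φ : G →* Γ) (hφ : IsQ ρ w φ) :
    Nat.card Γ ≤ (osz ρ w).factorial := by
  have hfin : Finite (Set.range fun x : G => ρ x w) := Set.finite_range _
  choose s hs using hφ.1
  have hinj : Function.Injective (fun γ : Γ => x8perm ρ w (s γ)) := by
    intro a b hab
    have hab' : x8perm ρ w (s a) = x8perm ρ w (s b) := hab
    have h1 : ∀ x : G, ρ (s a) (ρ x w) = ρ (s b) (ρ x w) := by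
      intro x
      have h2 := congrArg (fun e : Equiv.Perm (Set.range fun x : G => ρ x w) =>
        ((e ⟨ρ x w, x, rfl⟩ : Set.range fun x : G => ρ x w) : W)) hab'
      exact h2
    have h3 : φ ((s b)⁻¹ * s a) = 1 := by
      rw [hφ.2]
      intro x
      left
      rw [map_mul, map_mul, Module.End.mul_apply, Module.End.mul_apply, h1,
        ← Module.End.mul_apply, ← map_mul, inv_mul_cancel, map_one]
      rfl
    rw [map_mul, map_inv, hs, hs, inv_mul_eq_one] at h3
    exact h3.symm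
  have h := Nat.card_le_card_of_injective _ hinj
  rw [Nat.card_perm] at h
  exact h

/-- arithmetic: `2 ^ l ≤ n!` gives `l ≤ n (log₂ n + 1)` (`n! ≤ n ^ n < (2 ^ (log₂ n + 1)) ^ n` for `n ≥ 1`) -/
theorem le_of_two_pow_le_factorial {l n : ℕ} (hn : 1 ≤ n) (h : 2 ^ l ≤ n.factorial) :
    l ≤ n * (Nat.log 2 n + 1) := by
  have _ := hn
  have h1 : n.factorial ≤ n ^ n := Nat.factorial_le_pow n
  have h2 : n ≤ 2 ^ (Nat.log 2 n + 1) := (Nat.lt_pow_succ_log_self (by norm_num) n).le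
  have h3 : 2 ^ l ≤ 2 ^ (n * (Nat.log 2 n + 1)) := by
    calc 2 ^ l ≤ n.factorial := h
      _ ≤ n ^ n := h1
      _ ≤ (2 ^ (Nat.log 2 n + 1)) ^ n := Nat.pow_le_pow_left h2 n
      _ = 2 ^ (n * (Nat.log 2 n + 1)) := by rw [← pow_mul, mul_comm]
  exact (Nat.pow_le_pow_iff_right (by norm_num)).1 h3

end Pool.Agent.Lib.MP_7ab245_nt.Solv.SX
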