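import Pool.Agent.Lib.MP_7ab245_nt.Solv.SX.Defs

set_option autoImplicit false

namespace Pool.Agent.Lib.MP_7ab245_nt.Solv.SX

private theorem index_H1_le {G W : Type*} [Group G] [Finite G] [AddCommGroup W] [Module ℚ W]
    (ρ : Representation ℚ G W) (w : W) : (H1 ρ w).index ≤ osz ρ w := by
  classical
  have hf : Finite (Set.range fun x : G => ρ x w) := Set.finite_range _
  let g : (Set.range fun x : G => ρ x w) → G ⧸ (H1 ρ w) := fun v => (v.2.choose : G)
  have hg : Function.Surjective g := by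
    intro y
    obtain ⟨x, rfl⟩ := QuotientGroup.mk_surjective y
    refine ⟨⟨ρ x w, x, rfl⟩, ?_⟩
    have hs : ρ (Exists.choose (⟨x, rfl⟩ : ∃ z : G, (fun z : G => ρ z w) z = ρ x w)) w = ρ x w :=
      Exists.choose_spec (⟨x, rfl⟩ : ∃ z : G, (fun z : G => ρ z w) z = ρ x w)
    show ((Exists.choose (⟨x, rfl⟩ : ∃ z : G, (fun z : G => ρ z w) z = ρ x w) : G) :
      G ⧸ (H1 ρ w)) = (x : G ⧸ (H1 ρ w))
    generalize Exists.choose (⟨x, rfl⟩ : ∃ z : G, (fun z : G => ρ z w) z = ρ x w) = z at hs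
    rw [QuotientGroup.eq]
    left
    show ρ (z⁻¹ * x) w = w
    rw [map_mul, Module.End.mul_apply, ← hs, ← Module.End.mul_apply, ← map_mul, inv_mul_cancel,
      map_one, Module.End.one_apply]
  exact Nat.card_le_card_of_surjective g hg

/-- COUNT.  Let `C' = H1 ρ w ⊓ ⨅ j, (centralizer (S j)).comap φ`.  Its index is at most `osz ρ w * ∏ j, index` (`Subgroup.index_inf_le`,
`Subgroup.index_iInf_le` or by induction; `H1` contains the stabiliser of `w`, whose index is `osz ρ w`; the index of a comap is `≤`, equal for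
surjective `φ`).  For `c ∈ C'`, `φ c` commutes with every element of `⨆ j, S j`, so `c * u i = u i * c * ν` with `φ ν = 1`; hence
`ρ (x * c * u i) w = ρ (x * u i) (ρ (c * ν) w) = ± ρ (x * u i) w` for all `x` (`ker φ ≤ H1 ρ w`, take `x = 1` in `IsQ`).
So the number of tuples is at most `2 ^ r` times the number of cosets of `C'`. -/
theorem tsz_le {G Γ W : Type*} [Group G] [Finite G] [Group Γ] [AddCommGroup W] [Module ℚ W]
    (ρ : Representation ℚ G W) (w : W) (φ : G →* Γ) (hφ : IsQ ρ w φ) {c r : ℕ}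
    (S : Fin c → Subgroup Γ) (u : Fin r → G) (hu : ∀ i, φ (u i) ∈ ⨆ j, S j) :
    tsz ρ w u ≤ 2 ^ r * osz ρ w * ∏ j, (Subgroup.centralizer (S j : Set Γ)).index := by
  classical
  obtain ⟨hsurj, hker⟩ := hφ
  let C : Subgroup G := H1 ρ w ⊓ ⨅ j, (Subgroup.centralizer (S j : Set Γ)).comap φ
  have hCi : C.index ≤ osz ρ w * ∏ j, (Subgroup.centralizer (S j : Set Γ)).index := by
    refine Subgroup.index_inf_le.trans (Nat.mul_le_mul (index_H1_le ρ w) ?_)
    refine (Subgroup.index_iInf_le _).trans (le_of_eq ?_)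
    exact Finset.prod_congr rfl fun j _ => Subgroup.index_comap_of_surjective _ hsurj
  -- signs
  have key : ∀ (x : G), ∀ c ∈ C, ∀ i, ∃ e : ℤˣ, ρ (x * c * u i) w = (e : ℤ) • ρ (x * u i) w := by
    intro x c hc i
    have hc1 : ρ c w = w ∨ ρ c w = -w := hc.1
    have hc2 : ∀ j, φ c ∈ Subgroup.centralizer (S j : Set Γ) := by
      intro j
      have h1 : c ∈ ⨅ j, (Subgroup.centralizer (S j : Set Γ)).comap φ := hc.2
      have h2 := (Subgroup.mem_iInf.mp h1) j
      exact h2
    have hle : (⨆ j, S j) ≤ Subgroup.centralizer ({φ c} : Set Γ) := by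
      refine iSup_le fun j s hs => ?_
      rw [Subgroup.mem_centralizer_iff]
      intro h hh
      rw [Set.mem_singleton_iff] at hh
      rw [hh]
      exact ((Subgroup.mem_centralizer_iff.mp (hc2 j)) s hs).symm
    have hcomm : φ c * φ (u i) = φ (u i) * φ c :=
      (Subgroup.mem_centralizer_iff.mp (hle (hu i))) (φ c) rfl
    have hν : φ ((u i * c)⁻¹ * (c * u i)) = 1 := by
      rw [map_mul, map_inv, map_mul, map_mul, hcomm, inv_mul_cancel]
    have hν1 := (hker _).mp hν 1
    rw [mul_one, map_one, Module.End.one_apply] at hν1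
    have heq : x * c * u i = x * u i * (c * ((u i * c)⁻¹ * (c * u i))) := by
      group
    have hmul : ∀ (a b : G) (v : W), ρ (a * b) v = ρ a (ρ b v) := by
      intro a b v
      rw [map_mul, Module.End.mul_apply]
    rw [heq, hmul (x * u i), hmul c]
    rcases hν1 with h1 | h1 <;> rcases hc1 with h2 | h2 <;> rw [h1]
    · exact ⟨1, by rw [h2]; simp⟩
    · exact ⟨-1, by rw [h2]; simp⟩
    · exact ⟨-1, by rw [map_neg, h2]; simp⟩
    · exact ⟨1, by rw [map_neg, h2]; simp⟩
  -- the covering map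
  let F : (Fin r → ℤˣ) × (G ⧸ C) → (Fin r → W) :=
    fun p i => ((p.1 i : ℤˣ) : ℤ) • ρ (p.2.out * u i) w
  have hsub : (Set.range fun x : G => fun i => ρ (x * u i) w) ⊆ Set.range F := by
    rintro _ ⟨x, rfl⟩
    have hmem : ((x : G ⧸ C).out)⁻¹ * x ∈ C := by
      rw [← QuotientGroup.eq, QuotientGroup.out_eq']
    choose e he using key ((x : G ⧸ C).out) _ hmem
    refine ⟨(e, (x : G ⧸ C)), ?_⟩
    funext i
    have := he i
    rw [mul_inv_cancel_left] at this
    exact this.symm
  have hfin : (Set.range F).Finite := Set.finite_range F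
  calc tsz ρ w u ≤ Nat.card (Set.range F) := Nat.card_mono hfin hsub
    _ ≤ Nat.card ((Fin r → ℤˣ) × (G ⧸ C)) := Finite.card_range_le F
    _ = 2 ^ r * C.index := by
      rw [Nat.card_prod, Nat.card_fun]
      simp [Subgroup.index]
    _ ≤ 2 ^ r * (osz ρ w * ∏ j, (Subgroup.centralizer (S j : Set Γ)).index) :=
      Nat.mul_le_mul_left _ hCi
    _ = _ := by rw [mul_assoc]

end Pool.Agent.Lib.MP_7ab245_nt.Solv.SX
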