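import Pool.Agent.Lib.MP_7ab245_nt.Solv.SX.Defs

set_option autoImplicit false

namespace Pool.Agent.Lib.MP_7ab245_nt.Solv.SX

/-- select `R` linearly independent vectors from a generating set of a space of dimension `≥ R` -/
theorem exists_indep {ι V : Type*} [AddCommGroup V] [Module ℚ V] (f : ι → V) (A : Set ι) (R : ℕ)
    (hfin : FiniteDimensional ℚ (Submodule.span ℚ (f '' A)))
    (hR : R ≤ Module.finrank ℚ (Submodule.span ℚ (f '' A))) :
    ∃ u : Fin R → ι, (∀ i, u i ∈ A) ∧ LinearIndependent ℚ (fun i => f (u i)) := by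
  classical
  obtain ⟨b, hbs, hspan, hli⟩ := exists_linearIndependent ℚ (f '' A)
  have hfin' : FiniteDimensional ℚ (Submodule.span ℚ b) := by
    rw [hspan]
    exact hfin
  have hbfin : Finite b := by
    have h1 : LinearIndependent ℚ (fun x : b => (⟨x.1, Submodule.subset_span x.2⟩ :
        Submodule.span ℚ b)) := by
      apply LinearIndependent.of_comp (Submodule.subtype _)
      exact hli
    exact h1.finite
  have : Fintype b := Fintype.ofFinite b
  have hcard : Module.finrank ℚ (Submodule.span ℚ (f '' A)) = Fintype.card b := by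
    rw [← hspan]
    have := finrank_span_eq_card hli
    rwa [Subtype.range_coe] at this
  rw [hcard] at hR
  obtain ⟨e⟩ : Nonempty (Fin R ↪ b) :=
    Function.Embedding.nonempty_of_card_le (by rwa [Fintype.card_fin])
  have hex : ∀ i, ∃ x ∈ A, f x = (e i).1 := fun i => hbs (e i).2
  choose u hu hfu using hex
  refine ⟨u, hu, ?_⟩
  have h2 : (fun i => f (u i)) = (Subtype.val : b → V) ∘ e := by
    funext i
    exact hfu i
  rw [h2]
  exact hli.comp e e.injective

end Pool.Agent.Lib.MP_7ab245_nt.Solv.SX
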