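import Pool.Agent.Lib.MP_7ab245_nt.Solv.SX.X11

set_option autoImplicit false

namespace Pool.Agent.Lib.MP_7ab245_nt.Solv.SX

/-- Minkowski.  Let `L` be the `ℤ`-span of the (finitely many) vectors `ρ g b`, `g ∈ G`, `b` in a basis of `U`: a finitely generated
torsion-free `ℤ`-module, hence free, of rank `d = finrank ℚ U` (`LinearIndependent.iff_fractionRing`, `Module.Free`), stable under `G`, and spanning `U`.
The matrices of `ρ g` in a `ℤ`-basis of `L` form a finite group of integer matrices and determine `ρ g`; by `eq_one_of_mod_three`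
reduction mod 3 is injective on them (`A⁻¹ A' ≡ 1`), and there are `3 ^ (d ^ 2)` matrices over `ZMod 3`. -/
theorem minkowski {G U : Type*} [Group G] [Finite G] [AddCommGroup U] [Module ℚ U]
    [FiniteDimensional ℚ U] (ρ : Representation ℚ G U) :
    Nat.card (Set.range fun g => ρ g) ≤ 3 ^ (Module.finrank ℚ U) ^ 2 := by
  classical
  set d := Module.finrank ℚ U with hd
  let b := Module.finBasis ℚ U
  let S : Set U := Set.range (fun x : G × Fin d => ρ x.1 (b x.2))
  have hSfin : S.Finite := Set.finite_range _
  let L : Submodule ℤ U := Submodule.span ℤ S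
  have hLfg : L.FG := ⟨hSfin.toFinset, by simp [L]⟩
  have : Module.Finite ℤ L := Module.Finite.iff_fg.mpr hLfg
  have : IsAddTorsionFree U := IsAddTorsionFree.of_module_rat U
  have : Module.IsTorsionFree ℤ L := inferInstance
  have : Module.Free ℤ L := inferInstance
  set e := Module.finrank ℤ L with he
  let c : Module.Basis (Fin e) ℤ L := Module.finBasis ℤ L
  have hci : LinearIndependent ℤ (fun i => (c i : U)) := by
    have := c.linearIndependent
    exact this.map' L.subtype (Submodule.ker_subtype L)
  have hcq : LinearIndependent ℚ (fun i => (c i : U)) := by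
    exact (LinearIndependent.iff_fractionRing ℤ ℚ).mp hci
  have hed : e ≤ d := by
    have := hcq.fintype_card_le_finrank
    simpa using this
  -- stability
  have hst : ∀ g : G, ∀ x ∈ L, ρ g x ∈ L := by
    intro g x hx
    induction hx using Submodule.span_induction with
    | mem x hx =>
      obtain ⟨⟨h, i⟩, rfl⟩ := hx
      refine Submodule.subset_span ⟨(g * h, i), ?_⟩
      simp [map_mul]
    | zero => simp
    | add x y _ _ hx hy => rw [map_add]; exact L.add_mem hx hy
    | smul a x _ hx => rw [map_zsmul]; exact L.smul_mem a hx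
  let r : G → (L →ₗ[ℤ] L) := fun g => ((ρ g).restrictScalars ℤ).restrict (hst g)
  have hr1 : r 1 = 1 := by
    ext x
    simp [r]
  have hrm : ∀ g h, r (g * h) = r g * r h := by
    intro g h
    ext x
    simp [r, map_mul]
  let A : G → Matrix (Fin e) (Fin e) ℤ := fun g => LinearMap.toMatrix c c (r g)
  have hA1 : A 1 = 1 := by simp only [A, hr1]; exact LinearMap.toMatrix_one c
  have hAm : ∀ g h, A (g * h) = A g * A h := by
    intro g h
    simp only [A, hrm]
    exact LinearMap.toMatrix_mul c _ _
  let Ah : G →* Matrix (Fin e) (Fin e) ℤ := ⟨⟨A, hA1⟩, hAm⟩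
  have hinj : ∀ g h, (A g).map (Int.cast : ℤ → ZMod 3) = (A h).map (Int.cast : ℤ → ZMod 3) → ρ g = ρ h := by
    intro g h hgh
    have h1 : A (g⁻¹ * h) = 1 := by
      refine eq_one_of_mod_three (A (g⁻¹ * h)) (k := Nat.card G) Nat.card_pos ?_ ?_
      · have : Ah ((g⁻¹ * h) ^ Nat.card G) = 1 := by rw [pow_card_eq_one']; exact map_one Ah
        rw [map_pow] at this
        exact this
      · intro i j
        have h2 : (A (g⁻¹ * h)).map (Int.cast : ℤ → ZMod 3) = (1 : Matrix (Fin e) (Fin e) ℤ).map (Int.cast : ℤ → ZMod 3) := by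
          rw [hAm]
          have h3 : ∀ X Y : Matrix (Fin e) (Fin e) ℤ, (X * Y).map (Int.cast : ℤ → ZMod 3) = X.map (Int.cast : ℤ → ZMod 3) * Y.map (Int.cast : ℤ → ZMod 3) := by
            intro X Y
            exact Matrix.map_mul (f := Int.castRingHom (ZMod 3))
          rw [h3, ← hgh, ← h3, ← hAm, inv_mul_cancel, hA1]
        have h4 := congrFun (congrFun h2 i) j
        simp only [Matrix.map_apply] at h4
        have h5 := (ZMod.intCast_eq_intCast_iff_dvd_sub _ _ 3).mp h4.symm
        exact_mod_cast h5
    have h2 : r (g⁻¹ * h) = 1 := by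
      apply (LinearMap.toMatrix c c).injective
      rw [show LinearMap.toMatrix c c (r (g⁻¹ * h)) = 1 from h1]
      exact (LinearMap.toMatrix_one c).symm
    have h3 : ∀ x ∈ L, ρ (g⁻¹ * h) x = x := by
      intro x hx
      have := congrArg (fun f : L →ₗ[ℤ] L => ((f ⟨x, hx⟩ : L) : U)) h2
      simpa [r] using this
    have h4 : ρ (g⁻¹ * h) = 1 := by
      apply b.ext
      intro i
      rw [h3 (b i) (Submodule.subset_span ⟨(1, i), by simp⟩)]
      simp
    have h5 : ρ h = ρ g * ρ (g⁻¹ * h) := by rw [← map_mul]; simp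
    rw [h5, h4, mul_one]
  -- count
  have hle : Nat.card (Set.range fun g => ρ g) ≤ Nat.card (Matrix (Fin e) (Fin e) (ZMod 3)) := by
    let F : (Set.range fun g => ρ g) → Matrix (Fin e) (Fin e) (ZMod 3) := fun y => (A y.2.choose).map (Int.cast : ℤ → ZMod 3)
    have hF : Function.Injective F := by
      intro y z hyz
      have := hinj _ _ hyz
      apply Subtype.ext
      rw [← y.2.choose_spec, ← z.2.choose_spec]
      exact this
    have : Finite (Matrix (Fin e) (Fin e) (ZMod 3)) := by unfold Matrix; infer_instance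
    exact Nat.card_le_card_of_injective F hF
  refine hle.trans ?_
  have hcard : Nat.card (Matrix (Fin e) (Fin e) (ZMod 3)) = 3 ^ (e ^ 2) := by
    unfold Matrix
    rw [Nat.card_fun, Nat.card_fun]
    simp only [Nat.card_eq_fintype_card, ZMod.card, Fintype.card_fin]
    rw [← pow_mul, sq]
  rw [hcard]
  exact Nat.pow_le_pow_right (by norm_num) (Nat.pow_le_pow_left hed 2)

end Pool.Agent.Lib.MP_7ab245_nt.Solv.SX
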