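import Pool.Agent.Lib.MP_7ab245_nt.Solv.SX.X05
import Pool.Agent.Lib.MP_7ab245_nt.Solv.SX.X12

set_option autoImplicit false

namespace Pool.Agent.Lib.MP_7ab245_nt.Solv.SX

/-- `|T| ≤ 3 ^ d²`, `d` the dimension of the span of the `ρ u w`, `φ u ∈ T`.  Let `T~ = T.comap φ`; it acts on `U = spn ρ w φ T`
by a representation `σ` (restriction).  If `σ g = σ g'` (`g, g' ∈ T~`) then `e = φ (g⁻¹ g') ∈ T` fixes all lines `ρ s w`, `φ s ∈ T`.  The set `K` of all `e ∈ T` such that
`ρ (g * s) w = ± ρ s w` for all `g, s` with `φ g = e`, `φ s ∈ T` is a subgroup of `T` normalised by `T` (note `ker φ` preserves all lines), so `⊥` or `T` by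
`simple_of_min`; it is not `T` because `T` moves the line of `w`.  So `e = 1`, and `|T| ≤ |range σ| ≤ 3 ^ d²` by `minkowski`. -/
theorem card_le_of_moves {G Γ W : Type*} [Group G] [Finite G] [Group Γ] [AddCommGroup W]
    [Module ℚ W] (ρ : Representation ℚ G W) (w : W) (φ : G →* Γ) (hφ : IsQ ρ w φ)
    {N T : Subgroup Γ} (hN : MinNormal N) (hT : MinIn N T) (hm : Moves ρ w φ T) :
    Nat.card T ≤ 3 ^ (Module.finrank ℚ (spn ρ w φ T)) ^ 2 := by
  classical
  have hmul : ∀ a b : G, ∀ v : W, ρ (a * b) v = ρ a (ρ b v) := by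
    intro a b v
    rw [map_mul]
    rfl
  -- the kernel `K`
  let K : Subgroup Γ :=
    { carrier := {e | e ∈ T ∧ ∀ g s : G, φ g = e → φ s ∈ T →
        (ρ (g * s) w = ρ s w ∨ ρ (g * s) w = -ρ s w)}
      one_mem' := ⟨T.one_mem, fun g s hg _ => (hφ.2 g).mp hg s⟩
      mul_mem' := by
        rintro a b ⟨haT, ha⟩ ⟨hbT, hb⟩
        refine ⟨T.mul_mem haT hbT, ?_⟩
        intro g s hg hs
        obtain ⟨g1, hg1⟩ := hφ.1 a
        have hg2 : φ (g1⁻¹ * g) = b := by
          rw [map_mul, map_inv, hg1, hg]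
          group
        have h1 := hb (g1⁻¹ * g) s hg2 hs
        have h2 := ha g1 (g1⁻¹ * g * s) hg1 (by rw [map_mul, hg2]; exact T.mul_mem hbT hs)
        have h3 : g1 * (g1⁻¹ * g * s) = g * s := by group
        rw [h3] at h2
        rcases h1 with h1 | h1 <;> rcases h2 with h2 | h2 <;> rw [h2, h1] <;> simp
      inv_mem' := by
        rintro a ⟨haT, ha⟩
        refine ⟨T.inv_mem haT, ?_⟩
        intro g s hg hs
        have h1 := ha g⁻¹ (g * s) (by rw [map_inv, hg, inv_inv])
          (by rw [map_mul, hg]; exact T.mul_mem (T.inv_mem haT) hs)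
        have h2 : g⁻¹ * (g * s) = s := by group
        rw [h2] at h1
        rcases h1 with h1 | h1
        · left; exact h1.symm
        · right; rw [h1, neg_neg] }
  have hKT : K ≤ T := fun x hx => hx.1
  have hKn : ∀ t ∈ T, ∀ x ∈ K, t * x * t⁻¹ ∈ K := by
    rintro t ht x ⟨hxT, hx⟩
    refine ⟨T.mul_mem (T.mul_mem ht hxT) (T.inv_mem ht), ?_⟩
    intro g s hg hs
    obtain ⟨h, hh⟩ := hφ.1 t
    have h1 := hx (h⁻¹ * g * h) (h⁻¹ * s) (by
      rw [map_mul, map_mul, map_inv, hg, hh]
      group) (by rw [map_mul, map_inv, hh]; exact T.mul_mem (T.inv_mem ht) hs)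
    have h2 : g * s = h * (h⁻¹ * g * h * (h⁻¹ * s)) := by group
    have h3 : s = h * (h⁻¹ * s) := by group
    have h4 : ρ s w = ρ h (ρ (h⁻¹ * s) w) := by
      rw [← hmul, ← h3]
    rw [h2, hmul, h4]
    rcases h1 with h1 | h1
    · left; rw [h1]
    · right; rw [h1, map_neg]
  have hK : K = ⊥ := by
    rcases simple_of_min hN hT hKT hKn with h | h
    · exact h
    · exfalso
      obtain ⟨g, hg, h1, h2⟩ := hm
      have hgK : φ g ∈ K := by rw [h]; exact hg
      have := hgK.2 g 1 rfl (by simp)
      simp only [mul_one, map_one, Module.End.one_apply] at this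
      rcases this with h3 | h3
      · exact h1 h3
      · exact h2 h3
  -- the representation on the span
  let U := spn ρ w φ T
  let A : Set W := (fun u => ρ u w) '' {u | φ u ∈ T}
  have hAfin : A.Finite := Set.Finite.image _ (Set.toFinite _)
  have hfd : FiniteDimensional ℚ U := FiniteDimensional.span_of_finite ℚ hAfin
  have hst : ∀ g : T.comap φ, ∀ x ∈ U, ρ (g : G) x ∈ U := by
    intro g
    have h0 : ∀ x ∈ Submodule.span ℚ A, ρ (g : G) x ∈ Submodule.span ℚ A := by
      intro x hx
      induction hx using Submodule.span_induction with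
      | mem x hx =>
        obtain ⟨u, hu, rfl⟩ := hx
        refine Submodule.subset_span ⟨(g : G) * u, ?_, ?_⟩
        · change φ ((g : G) * u) ∈ T
          rw [map_mul]
          exact T.mul_mem g.2 hu
        · exact hmul _ _ _
      | zero => rw [map_zero]; exact Submodule.zero_mem _
      | add x y _ _ hx hy => rw [map_add]; exact Submodule.add_mem _ hx hy
      | smul a x _ hx => rw [map_smul]; exact Submodule.smul_mem _ a hx
    exact h0
  let σ : Representation ℚ (T.comap φ) U :=
    { toFun := fun g => (ρ (g : G)).restrict (hst g)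
      map_one' := by
        ext x
        simp
      map_mul' := by
        intro a b
        ext x
        simp [map_mul] }
  have hσ : ∀ g h : T.comap φ, σ g = σ h → φ (g : G) = φ (h : G) := by
    intro g h hgh
    have he : φ ((g : G)⁻¹ * h) ∈ K := by
      refine ⟨?_, ?_⟩
      · rw [map_mul, map_inv]
        exact T.mul_mem (T.inv_mem g.2) h.2
      · intro k s hk hs
        have h1 : φ (((g : G)⁻¹ * h)⁻¹ * k) = 1 := by
          rw [map_mul, map_inv, hk]
          group
        have h2 := (hφ.2 _).mp h1 s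
        have h3 : k * s = (g : G)⁻¹ * (h * (((g : G)⁻¹ * h)⁻¹ * k * s)) := by group
        have h4 : ρ (h : G) (ρ s w) = ρ (g : G) (ρ s w) := by
          have := congrArg (fun f : U →ₗ[ℚ] U => ((f ⟨ρ s w, Submodule.subset_span ⟨s, hs, rfl⟩⟩ : U) : W)) hgh
          exact this.symm
        have h5 : ρ (g : G)⁻¹ (ρ (g : G) (ρ s w)) = ρ s w := by
          rw [← hmul]
          simp
        rw [h3, hmul, hmul]
        rcases h2 with h2 | h2
        · left
          rw [h2, h4, h5]
        · right
          rw [h2, map_neg, map_neg, h4, h5]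
    rw [hK, Subgroup.mem_bot, map_mul, map_inv] at he
    exact (inv_mul_eq_one.mp he)
  have hle : Nat.card T ≤ Nat.card (Set.range fun g => σ g) := by
    have hch : ∀ t : T, ∃ g : G, φ g = t := fun t => hφ.1 t
    choose c hc using hch
    let F : T → (Set.range fun g => σ g) := fun t =>
      ⟨σ ⟨c t, by rw [Subgroup.mem_comap, hc]; exact t.2⟩, ⟨_, rfl⟩⟩
    refine Nat.card_le_card_of_injective F ?_
    intro t t' htt
    have h1 := hσ _ _ (Subtype.ext_iff.mp htt)
    simp only [hc] at h1
    exact Subtype.ext h1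
  exact hle.trans (minkowski σ)

end Pool.Agent.Lib.MP_7ab245_nt.Solv.SX
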