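import Pool.Agent.Lib.MP_7ab245_nt.Solv.SX.X06
import Pool.Agent.Lib.MP_7ab245_nt.Solv.SX.X07
import Pool.Agent.Lib.MP_7ab245_nt.Solv.SX.X08
import Pool.Agent.Lib.MP_7ab245_nt.Solv.SX.X09
import Pool.Agent.Lib.MP_7ab245_nt.Solv.SX.X13
import Pool.Agent.Lib.MP_7ab245_nt.Solv.SX.X14

set_option autoImplicit false

namespace Pool.Agent.Lib.MP_7ab245_nt.Solv.SX

private theorem x15_num (R n : ℕ) (hn : 2 ^ (2 * R + 1) ≤ n) :
    2 ^ R * (Nat.log 2 n + 1) ≤ n := by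
  have hn0 : n ≠ 0 := by
    have : 0 < 2 ^ (2 * R + 1) := by positivity
    omega
  have h1 : 2 * R + 1 ≤ Nat.log 2 n := (Nat.le_log_iff_pow_le (by norm_num) hn0).2 hn
  have h2 : 2 ^ Nat.log 2 n ≤ n := Nat.pow_log_le_self 2 hn0
  set L := Nat.log 2 n
  obtain ⟨j, hj⟩ : ∃ j, L = R + (j + 1) := ⟨L - R - 1, by omega⟩
  have h3 : j < 2 ^ j := Nat.lt_two_pow_self
  have h4 : L + 1 ≤ 2 ^ (j + 1) := by
    rw [pow_succ]
    omega
  calc 2 ^ R * (L + 1) ≤ 2 ^ R * 2 ^ (j + 1) := Nat.mul_le_mul_left _ h4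
    _ = 2 ^ L := by rw [← pow_add, hj]
    _ ≤ n := h2

/-- Case 1.  `R = κ + 4`; by `card_le_of_moves` `R ≤ finrank (spn ρ w φ T)`, choose `u` by `exists_indep`; `tsz_le` with `c = 1`, `S = ![T]`, `index_centralizer_le`,
`two_pow_ncj_le`, `card_le_factorial`, `le_of_two_pow_le_factorial` (`n = osz ρ w`):
`tsz ≤ 2 ^ R * n * (n (log₂ n + 1) * n ^ κ) ≤ n ^ (κ + 3)` as soon as `2 ^ R (log₂ n + 1) ≤ n`. -/
theorem case1 (κ : ℕ) : ∃ n₀ : ℕ, ∀ {G Γ W : Type*} [Group G] [Finite G] [Group Γ]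
    [AddCommGroup W] [Module ℚ W] (ρ : Representation ℚ G W) (w : W) (φ : G →* Γ),
    IsQ ρ w φ → n₀ ≤ osz ρ w → ∀ {N T : Subgroup Γ}, MinNormal N → MinIn N T → NonAb T →
    Moves ρ w φ T → 3 ^ (κ + 4) ^ 2 < Nat.card T → Nat.card (MulAut T) ≤ osz ρ w ^ κ →
    ∃ u : Fin (κ + 4) → G, LinearIndependent ℚ (fun i => ρ (u i) w) ∧
      tsz ρ w u ≤ osz ρ w ^ (κ + 3) := by
  refine ⟨2 ^ (2 * (κ + 4) + 1), ?_⟩
  intro G Γ W _ _ _ _ _ ρ w φ hφ hn N T hN hT hna hm hcard haut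
  have hΓ : Finite Γ := Finite.of_surjective φ hφ.1
  set n := osz ρ w with hndef
  have hn1 : 1 ≤ n := by
    have : 0 < 2 ^ (2 * (κ + 4) + 1) := by positivity
    omega
  have hR : κ + 4 ≤ Module.finrank ℚ (spn ρ w φ T) := by
    by_contra hlt
    push Not at hlt
    have h1 := card_le_of_moves ρ w φ hφ hN hT hm
    have h2 : 3 ^ (Module.finrank ℚ (spn ρ w φ T)) ^ 2 ≤ 3 ^ (κ + 4) ^ 2 :=
      Nat.pow_le_pow_right (by norm_num) (Nat.pow_le_pow_left hlt.le 2)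
    omega
  have hfin : FiniteDimensional ℚ (spn ρ w φ T) :=
    FiniteDimensional.span_of_finite ℚ (Set.toFinite _)
  obtain ⟨u, hu, hind⟩ := exists_indep (fun x : G => ρ x w) {x | φ x ∈ T} (κ + 4) hfin hR
  refine ⟨u, hind, ?_⟩
  have h1 := tsz_le ρ w φ hφ (c := 1) (fun _ => T) u (fun i => by
    have h2 : T ≤ ⨆ _ : Fin 1, T := le_iSup (fun _ : Fin 1 => T) 0
    exact h2 (hu i))
  rw [Fin.prod_univ_one] at h1
  have h2 := index_centralizer_le T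
  have h3 : ncj T ≤ n * (Nat.log 2 n + 1) := by
    apply le_of_two_pow_le_factorial hn1
    have h4 := two_pow_ncj_le hN.1 hT hna
    have h5 : Nat.card N ≤ Nat.card Γ := Subgroup.card_le_card_group N
    exact h4.trans (h5.trans (card_le_factorial ρ w φ hφ))
  have h4 := x15_num (κ + 4) n hn
  calc tsz ρ w u ≤ 2 ^ (κ + 4) * n * (Subgroup.centralizer (T : Set Γ)).index := h1
    _ ≤ 2 ^ (κ + 4) * n * (ncj T * Nat.card (MulAut T)) := Nat.mul_le_mul_left _ h2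
    _ ≤ 2 ^ (κ + 4) * n * ((n * (Nat.log 2 n + 1)) * n ^ κ) :=
        Nat.mul_le_mul_left _ (Nat.mul_le_mul h3 haut)
    _ = (2 ^ (κ + 4) * (Nat.log 2 n + 1)) * n ^ (κ + 2) := by ring
    _ ≤ n * n ^ (κ + 2) := Nat.mul_le_mul_right _ h4
    _ = n ^ (κ + 3) := by ring

end Pool.Agent.Lib.MP_7ab245_nt.Solv.SX
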