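import Pool.Agent.Lib.MP_7ab245_nt.Solv.SX.X05

set_option autoImplicit false

namespace Pool.Agent.Lib.MP_7ab245_nt.Solv.SX

/-- `|T|` has an odd prime factor: otherwise `T` is a nontrivial 2-group and has nontrivial centre (`IsPGroup`), contradicting `centre_trivial`. -/
theorem exists_odd_prime {Γ : Type*} [Group Γ] [Finite Γ] {N T : Subgroup Γ} (hN : MinNormal N)
    (hT : MinIn N T) (hna : NonAb T) : ∃ p : ℕ, p.Prime ∧ p ≠ 2 ∧ p ∣ Nat.card T := by
  by_contra hcon
  push Not at hcon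
  have : Fact (Nat.Prime 2) := ⟨Nat.prime_two⟩
  have hcard : Nat.card T ≠ 0 := Nat.card_pos.ne'
  have h2 : Nat.card T = 2 ^ (Nat.card T).primeFactorsList.length :=
    Nat.eq_prime_pow_of_unique_prime_dvd hcard fun {d} hd hdT => by
      by_contra hne
      exact hcon d hd hne hdT
  have hp : IsPGroup 2 T := IsPGroup.of_card h2
  obtain ⟨a, ha, b, hb, hab⟩ := hna
  have hnt : Nontrivial T := by
    refine ⟨⟨⟨a, ha⟩, ⟨b, hb⟩, fun h => hab ?_⟩⟩
    have : a = b := congrArg Subtype.val h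
    rw [this]
  have hc : Nontrivial (Subgroup.center T) := hp.center_nontrivial
  obtain ⟨⟨z, hz⟩, hz1⟩ := exists_ne (1 : Subgroup.center T)
  apply hz1
  have h1 : (z : Γ) = 1 := by
    refine centre_trivial hN hT ⟨a, ha, b, hb, hab⟩ z.2 fun t ht => ?_
    have h3 := (Subgroup.mem_center_iff.1 hz) ⟨t, ht⟩
    have h4 := congrArg Subtype.val h3
    simpa using h4.symm
  exact Subtype.ext (Subtype.ext h1)

end Pool.Agent.Lib.MP_7ab245_nt.Solv.SX
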