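import Pool.Agent.Lib.MP_7ab245_nt.Solv.SX.X05

set_option autoImplicit false

namespace Pool.Agent.Lib.MP_7ab245_nt.Solv.SX

private theorem decomp3 {Γ : Type*} [Group Γ] {T : Fin 3 → Subgroup Γ}
    (hc : ∀ i j, i ≠ j → ∀ a ∈ T i, ∀ b ∈ T j, a * b = b * a) {e : Γ} (he : e ∈ ⨆ i, T i) :
    ∃ t : Fin 3 → Γ, (∀ i, t i ∈ T i) ∧ e = t 0 * t 1 * t 2 := by
  refine Subgroup.iSup_induction T
    (C := fun e => ∃ t : Fin 3 → Γ, (∀ i, t i ∈ T i) ∧ e = t 0 * t 1 * t 2) he ?_ ?_ ?_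
  · intro i x hx
    refine ⟨fun j => if j = i then x else 1, ?_, ?_⟩
    · intro j
      by_cases h : j = i
      · subst h; simpa using hx
      · simp [h, one_mem]
    · fin_cases i <;> simp
  · exact ⟨fun _ => 1, fun i => one_mem _, by simp⟩
  · rintro x y ⟨t, ht, rfl⟩ ⟨s, hs, rfl⟩
    refine ⟨fun i => t i * s i, fun i => mul_mem (ht i) (hs i), ?_⟩
    have h10 := hc 1 0 (by decide) _ (ht 1) _ (hs 0)
    have h20 := hc 2 0 (by decide) _ (ht 2) _ (hs 0)
    have h21 := hc 2 1 (by decide) _ (ht 2) _ (hs 1)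
    calc t 0 * t 1 * t 2 * (s 0 * s 1 * s 2)
        = t 0 * t 1 * (t 2 * s 0) * s 1 * s 2 := by group
      _ = t 0 * (t 1 * s 0) * (t 2 * s 1) * s 2 := by rw [h20]; group
      _ = t 0 * s 0 * (t 1 * s 1) * (t 2 * s 2) := by rw [h10, h21]; group

/-- The elements of `S` which fix all the lines of `s w`, `φ s ∈ S`. -/
private def fixK {G Γ W : Type*} [Group G] [Group Γ] [AddCommGroup W] [Module ℚ W]
    (ρ : Representation ℚ G W) (w : W) (φ : G →* Γ) (hφ : IsQ ρ w φ) (S : Subgroup Γ) :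
    Subgroup Γ where
  carrier := {e | e ∈ S ∧ ∀ g, φ g = e → ∀ s, φ s ∈ S → ρ (g * s) w = ρ s w ∨
    ρ (g * s) w = -ρ s w}
  one_mem' := ⟨one_mem _, fun g hg s _ => (hφ.2 g).1 hg s⟩
  mul_mem' := by
    rintro a b ⟨ha, ha'⟩ ⟨hb, hb'⟩
    refine ⟨mul_mem ha hb, fun g hg s hs => ?_⟩
    obtain ⟨g1, rfl⟩ := hφ.1 a
    have h2 : φ (g1⁻¹ * g) = b := by rw [map_mul, hg, map_inv]; group
    have h3 := ha' g1 rfl (g1⁻¹ * g * s) (by rw [map_mul, h2]; exact mul_mem hb hs)
    have h4 := hb' _ h2 s hs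
    rw [show g1 * (g1⁻¹ * g * s) = g * s by group] at h3
    rcases h3 with h3 | h3 <;> rcases h4 with h4 | h4 <;> rw [h3, h4]
    · exact Or.inl rfl
    · exact Or.inr rfl
    · exact Or.inr rfl
    · exact Or.inl (neg_neg _)
  inv_mem' := by
    rintro a ⟨ha, ha'⟩
    refine ⟨inv_mem ha, fun g hg s hs => ?_⟩
    have h1 : φ g⁻¹ = a := by rw [map_inv, hg, inv_inv]
    have h2 := ha' g⁻¹ h1 (g * s) (by rw [map_mul, hg]; exact mul_mem (inv_mem ha) hs)
    rw [show g⁻¹ * (g * s) = s by group] at h2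
    rcases h2 with h2 | h2
    · exact Or.inl h2.symm
    · exact Or.inr (by rw [h2, neg_neg])

/-- `S = T₁ ⊔ T₂ ⊔ T₃` acts faithfully on the lines `ρ s w`, `φ s ∈ S`.  Suppose `e ∈ S`, `e ≠ 1` fixes all these lines.  The set `K` of the elements of `S` fixing all these lines is a
subgroup normalised by `S`.  Write `e = t₁ t₂ t₃`, `t_i ∈ T_i` (the `T_i` commute pairwise by `comm_of_ne`), say `t_i ≠ 1`; by `centre_trivial` there is `t ∈ T_i` with
`t_i t ≠ t t_i`, and `e t e⁻¹ t⁻¹ = t_i t t_i⁻¹ t⁻¹ ≠ 1` is in `K ⊓ T_i`, which is normalised by `T_i`, so `K ⊓ T_i = T_i` by `simple_of_min`; so `T_i` fixes the line of `w`, contradicting `Moves`. -/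
theorem faithful3 {G Γ W : Type*} [Group G] [Finite G] [Group Γ] [AddCommGroup W] [Module ℚ W]
    (ρ : Representation ℚ G W) (w : W) (φ : G →* Γ) (hφ : IsQ ρ w φ) {N : Subgroup Γ}
    (hN : MinNormal N) (T : Fin 3 → Subgroup Γ) (hinj : Function.Injective T)
    (hT : ∀ i, MinIn N (T i)) (hna : ∀ i, NonAb (T i)) (hm : ∀ i, Moves ρ w φ (T i))
    (e : Γ) (heS : e ∈ ⨆ i, T i) (he : e ≠ 1) :
    ∃ g s : G, φ g = e ∧ φ s ∈ ⨆ i, T i ∧ ρ (g * s) w ≠ ρ s w ∧ ρ (g * s) w ≠ -ρ s w := by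
  by_contra hcon
  push Not at hcon
  set S : Subgroup Γ := ⨆ i, T i with hS
  have hc : ∀ i j, i ≠ j → ∀ a ∈ T i, ∀ b ∈ T j, a * b = b * a := fun i j hij =>
    comm_of_ne (hT i) (hT j) fun h => hij (hinj h)
  have hTS : ∀ i, T i ≤ S := fun i => le_iSup T i
  have hSN : S ≤ N := iSup_le fun i => (hT i).1
  have heK : e ∈ fixK ρ w φ hφ S := by
    refine ⟨heS, fun g hg s hs => ?_⟩
    by_cases h : ρ (g * s) w = ρ s w
    · exact Or.inl h
    · exact Or.inr (hcon g s hg hs h)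
  have hKn : ∀ t ∈ S, ∀ x ∈ fixK ρ w φ hφ S, t * x * t⁻¹ ∈ fixK ρ w φ hφ S := by
    rintro t ht x ⟨hx, hx'⟩
    refine ⟨mul_mem (mul_mem ht hx) (inv_mem ht), fun g hg s hs => ?_⟩
    obtain ⟨h, rfl⟩ := hφ.1 t
    have h1 : φ (h⁻¹ * g * h) = x := by rw [map_mul, map_mul, hg, map_inv]; group
    have h2 := hx' _ h1 (h⁻¹ * s) (by rw [map_mul, map_inv]; exact mul_mem (inv_mem ht) hs)
    rw [show h⁻¹ * g * h * (h⁻¹ * s) = h⁻¹ * (g * s) by group, map_mul ρ h⁻¹ (g * s),
      map_mul ρ h⁻¹ s] at h2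
    have h3 : ∀ v : W, ρ h (ρ h⁻¹ v) = v := fun v => by
      rw [← Module.End.mul_apply, ← map_mul, mul_inv_cancel, map_one, Module.End.one_apply]
    rcases h2 with h2 | h2
    · left
      have := congrArg (ρ h) h2
      simpa [Module.End.mul_apply, h3] using this
    · right
      have := congrArg (ρ h) h2
      simpa [Module.End.mul_apply, h3] using this
  -- no `T i` is contained in `K`
  have hnot : ∀ i, ¬ T i ≤ fixK ρ w φ hφ S := by
    intro i hle
    obtain ⟨g, hg, h1, h2⟩ := hm i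
    have := (hle hg).2 g rfl 1 (by rw [map_one]; exact one_mem _)
    rw [mul_one, map_one, Module.End.one_apply] at this
    rcases this with h | h
    · exact h1 h
    · exact h2 h
  have hbot : ∀ i, fixK ρ w φ hφ S ⊓ T i = ⊥ := by
    intro i
    rcases simple_of_min hN (hT i) (R := fixK ρ w φ hφ S ⊓ T i) inf_le_right
      (fun t ht x hx => ⟨hKn t (hTS i ht) x hx.1,
        (T i).mul_mem ((T i).mul_mem ht hx.2) ((T i).inv_mem ht)⟩) with
      h | h
    · exact h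
    · exact absurd (inf_eq_right.mp h) (hnot i)
  -- `e` commutes with all `T i`
  have hecomm : ∀ i, ∀ t ∈ T i, e * t = t * e := by
    intro i t ht
    have h1 : e * t * e⁻¹ * t⁻¹ ∈ fixK ρ w φ hφ S ⊓ T i := by
      refine ⟨?_, (T i).mul_mem ((hT i).2.2.1 e (hSN heS) t ht) ((T i).inv_mem ht)⟩
      have := mul_mem heK (hKn t (hTS i ht) e⁻¹ (inv_mem heK))
      rwa [show e * (t * e⁻¹ * t⁻¹) = e * t * e⁻¹ * t⁻¹ by group] at this
    rw [hbot i, Subgroup.mem_bot] at h1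
    calc e * t = (e * t * e⁻¹ * t⁻¹) * (t * e) := by group
      _ = t * e := by rw [h1, one_mul]
  obtain ⟨t, ht, het⟩ := decomp3 hc heS
  have key : ∀ i, t i = 1 := by
    intro i
    refine centre_trivial hN (hT i) (hna i) (ht i) fun x hx => ?_
    have h := hecomm i x hx
    rw [het] at h
    fin_cases i
    · have h1 := hc 1 0 (by decide) _ (ht 1) _ hx
      have h2 := hc 2 0 (by decide) _ (ht 2) _ hx
      have h3 : t 0 * x * (t 1 * t 2) = x * t 0 * (t 1 * t 2) := by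
        calc t 0 * x * (t 1 * t 2) = t 0 * (t 1 * x) * t 2 := by rw [h1]; group
          _ = t 0 * t 1 * (x * t 2) := by group
          _ = t 0 * t 1 * t 2 * x := by rw [← h2]; group
          _ = x * (t 0 * t 1 * t 2) := h
          _ = x * t 0 * (t 1 * t 2) := by group
      exact mul_right_cancel h3
    · have h1 := hc 0 1 (by decide) _ (ht 0) _ hx
      have h2 := hc 2 1 (by decide) _ (ht 2) _ hx
      have h3 : t 0 * (t 1 * x) * t 2 = t 0 * (x * t 1) * t 2 := by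
        calc t 0 * (t 1 * x) * t 2 = t 0 * t 1 * (x * t 2) := by group
          _ = t 0 * t 1 * t 2 * x := by rw [← h2]; group
          _ = x * (t 0 * t 1 * t 2) := h
          _ = (x * t 0) * t 1 * t 2 := by group
          _ = t 0 * (x * t 1) * t 2 := by rw [← h1]; group
      exact mul_left_cancel (mul_right_cancel h3)
    · have h1 := hc 0 2 (by decide) _ (ht 0) _ hx
      have h2 := hc 1 2 (by decide) _ (ht 1) _ hx
      have h3 : t 0 * t 1 * (t 2 * x) = t 0 * t 1 * (x * t 2) := by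
        calc t 0 * t 1 * (t 2 * x) = t 0 * t 1 * t 2 * x := by group
          _ = x * (t 0 * t 1 * t 2) := h
          _ = (x * t 0) * t 1 * t 2 := by group
          _ = t 0 * (x * t 1) * t 2 := by rw [← h1]; group
          _ = t 0 * t 1 * (x * t 2) := by rw [← h2]; group
      exact mul_left_cancel h3
  apply he
  rw [het, key 0, key 1, key 2]
  simp

end Pool.Agent.Lib.MP_7ab245_nt.Solv.SX
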