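import Pool.Agent.Lib.MP_7ab245_nt.Solv.SX.X05

set_option autoImplicit false

namespace Pool.Agent.Lib.MP_7ab245_nt.Solv.SX

private def prod3 {Γ : Type*} [Group Γ] (e : Fin 3 → Γ)
    (h : ∀ i j, i ≠ j → ∀ a ∈ Subgroup.zpowers (e i), ∀ b ∈ Subgroup.zpowers (e j),
      a * b = b * a) :
    (Subgroup.zpowers (e 0) × Subgroup.zpowers (e 1) × Subgroup.zpowers (e 2)) →* Γ where
  toFun x := x.1 * x.2.1 * x.2.2
  map_one' := by simp
  map_mul' := by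
    rintro ⟨⟨t0, ht0⟩, ⟨t1, ht1⟩, ⟨t2, ht2⟩⟩ ⟨⟨s0, hs0⟩, ⟨s1, hs1⟩, ⟨s2, hs2⟩⟩
    have h10 := h 1 0 (by decide) _ ht1 _ hs0
    have h20 := h 2 0 (by decide) _ ht2 _ hs0
    have h21 := h 2 1 (by decide) _ ht2 _ hs1
    symm
    show t0 * t1 * t2 * (s0 * s1 * s2) = t0 * s0 * (t1 * s1) * (t2 * s2)
    calc t0 * t1 * t2 * (s0 * s1 * s2)
        = t0 * t1 * (t2 * s0) * s1 * s2 := by group
      _ = t0 * (t1 * s0) * (t2 * s1) * s2 := by rw [h20]; group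
      _ = t0 * s0 * (t1 * s1) * (t2 * s2) := by rw [h10, h21]; group

/-- `E = ⟨e₁, e₂, e₃⟩`, `e_i ∈ T_i` of order `p` (Cauchy).  The `e_i` commute (`comm_of_ne`); the map `(a, b, c) ↦ e₁^a e₂^b e₃^c` on `(ZMod p)^3` is injective: if
`e₁^a e₂^b e₃^c = 1` then `e₁^a` commutes with `T₁` (as `e₂, e₃` do) so `e₁^a = 1` by `centre_trivial`, etc. -/
theorem exists_elementary3 {Γ : Type*} [Group Γ] [Finite Γ] {N : Subgroup Γ} (hN : MinNormal N)
    (T : Fin 3 → Subgroup Γ) (hinj : Function.Injective T) (hT : ∀ i, MinIn N (T i))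
    (hna : ∀ i, NonAb (T i)) (p : ℕ) (hp : p.Prime) (hpT : ∀ i, p ∣ Nat.card (T i)) :
    ∃ E : Subgroup Γ, E ≤ ⨆ i, T i ∧ (∀ a ∈ E, ∀ b ∈ E, a * b = b * a) ∧ (∀ a ∈ E, a ^ p = 1) ∧
      Nat.card E = p ^ 3 := by
  have : Fact p.Prime := ⟨hp⟩
  have hex : ∀ i, ∃ e : Γ, e ∈ T i ∧ orderOf e = p := by
    intro i
    obtain ⟨x, hx⟩ := exists_prime_orderOf_dvd_card' (G := T i) p (hpT i)
    exact ⟨x, x.2, by rw [Subgroup.orderOf_coe, hx]⟩
  choose e heT heo using hex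
  have hz : ∀ i, Subgroup.zpowers (e i) ≤ T i := fun i => by
    rw [Subgroup.zpowers_le]; exact heT i
  have hc : ∀ i j, i ≠ j → ∀ a ∈ T i, ∀ b ∈ T j, a * b = b * a := fun i j hij =>
    comm_of_ne (hT i) (hT j) fun h => hij (hinj h)
  have hcz : ∀ i j, i ≠ j → ∀ a ∈ Subgroup.zpowers (e i), ∀ b ∈ Subgroup.zpowers (e j),
      a * b = b * a := fun i j hij a ha b hb => hc i j hij a (hz i ha) b (hz j hb)
  have hpow : ∀ i, ∀ a ∈ Subgroup.zpowers (e i), a ^ p = 1 := by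
    rintro i a ⟨k, rfl⟩
    show (e i ^ k) ^ p = 1
    rw [← zpow_natCast, ← zpow_mul, mul_comm, zpow_mul, zpow_natCast, ← heo i, pow_orderOf_eq_one,
      one_zpow]
  have hinjf : Function.Injective (prod3 e hcz) := by
    rw [injective_iff_map_eq_one]
    rintro ⟨⟨t0, ht0⟩, ⟨t1, ht1⟩, ⟨t2, ht2⟩⟩ hx
    have hx : t0 * t1 * t2 = 1 := hx
    have h0 : t0 = 1 := by
      refine centre_trivial hN (hT 0) (hna 0) (hz 0 ht0) fun x hx' => ?_
      have h1 := hc 1 0 (by decide) _ (hz 1 ht1) _ hx'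
      have h2 := hc 2 0 (by decide) _ (hz 2 ht2) _ hx'
      have h3 : t0 * x * (t1 * t2) = x * t0 * (t1 * t2) := by
        calc t0 * x * (t1 * t2) = t0 * (t1 * x) * t2 := by rw [h1]; group
          _ = t0 * t1 * (x * t2) := by group
          _ = t0 * t1 * t2 * x := by rw [← h2]; group
          _ = x * (t0 * t1 * t2) := by rw [hx, one_mul, mul_one]
          _ = x * t0 * (t1 * t2) := by group
      exact mul_right_cancel h3
    subst h0
    rw [one_mul] at hx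
    have h1 : t1 = 1 := by
      refine centre_trivial hN (hT 1) (hna 1) (hz 1 ht1) fun x hx' => ?_
      have h2 := hc 2 1 (by decide) _ (hz 2 ht2) _ hx'
      have h3 : t1 * x * t2 = x * t1 * t2 := by
        calc t1 * x * t2 = t1 * (x * t2) := by group
          _ = t1 * t2 * x := by rw [← h2]; group
          _ = x * (t1 * t2) := by rw [hx, one_mul, mul_one]
          _ = x * t1 * t2 := by group
      exact mul_right_cancel h3
    subst h1
    rw [one_mul] at hx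
    subst hx
    rfl
  refine ⟨(prod3 e hcz).range, ?_, ?_, ?_, ?_⟩
  · rintro _ ⟨⟨⟨t0, ht0⟩, ⟨t1, ht1⟩, ⟨t2, ht2⟩⟩, rfl⟩
    exact mul_mem (mul_mem (Subgroup.mem_iSup_of_mem 0 (hz 0 ht0))
      (Subgroup.mem_iSup_of_mem 1 (hz 1 ht1))) (Subgroup.mem_iSup_of_mem 2 (hz 2 ht2))
  · rintro _ ⟨x, rfl⟩ _ ⟨y, rfl⟩
    rw [← map_mul, ← map_mul]
    have hzc : ∀ g : Γ, ∀ a b : Subgroup.zpowers g, a * b = b * a := by
      rintro g ⟨_, m, rfl⟩ ⟨_, n, rfl⟩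
      exact Subtype.ext ((Commute.refl g).zpow_zpow m n)
    congr 1
    exact Prod.ext (hzc _ _ _) (Prod.ext (hzc _ _ _) (hzc _ _ _))
  · rintro _ ⟨⟨⟨t0, ht0⟩, ⟨t1, ht1⟩, ⟨t2, ht2⟩⟩, rfl⟩
    rw [← map_pow]
    have : ((⟨⟨t0, ht0⟩, ⟨t1, ht1⟩, ⟨t2, ht2⟩⟩ : Subgroup.zpowers (e 0) ×
        Subgroup.zpowers (e 1) × Subgroup.zpowers (e 2)) ^ p) = 1 := by
      refine Prod.ext ?_ (Prod.ext ?_ ?_)
      · exact Subtype.ext (hpow 0 t0 ht0)
      · exact Subtype.ext (hpow 1 t1 ht1)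
      · exact Subtype.ext (hpow 2 t2 ht2)
    rw [this, map_one]
  · have h1 : Nat.card (prod3 e hcz).range = Nat.card (Subgroup.zpowers (e 0) ×
        Subgroup.zpowers (e 1) × Subgroup.zpowers (e 2)) :=
      (Nat.card_congr (MonoidHom.ofInjective hinjf).toEquiv).symm
    rw [h1, Nat.card_prod, Nat.card_prod, Nat.card_zpowers, Nat.card_zpowers, Nat.card_zpowers,
      heo, heo, heo]
    ring

end Pool.Agent.Lib.MP_7ab245_nt.Solv.SX
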