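import Mathlib

/-! Definitions for the nonsolvable part of the reduction of Lehmer's problem to groups with large
minimal normal subgroups. -/

set_option autoImplicit false

namespace Pool.Agent.Lib.MP_7ab245_nt.Solv.SX

section grp
variable {Γ : Type*} [Group Γ]

/-- `N` is a minimal normal subgroup -/
def MinNormal (N : Subgroup Γ) : Prop :=
  N.Normal ∧ N ≠ ⊥ ∧ ∀ M : Subgroup Γ, M.Normal → M ≤ N → M = ⊥ ∨ M = N

/-- `T` is a minimal one among the nontrivial subgroups of `N` normalised by `N` -/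
def MinIn (N T : Subgroup Γ) : Prop :=
  T ≤ N ∧ T ≠ ⊥ ∧ (∀ n ∈ N, ∀ t ∈ T, n * t * n⁻¹ ∈ T) ∧
    ∀ M : Subgroup Γ, M ≤ T → (∀ n ∈ N, ∀ t ∈ M, n * t * n⁻¹ ∈ M) → M = ⊥ ∨ M = T

/-- `T` is not commutative -/
def NonAb (T : Subgroup Γ) : Prop := ∃ a ∈ T, ∃ b ∈ T, a * b ≠ b * a

/-- the conjugate subgroup `s T s⁻¹` -/
def cj (s : Γ) (T : Subgroup Γ) : Subgroup Γ := T.map (MulAut.conj s).toMonoidHom

/-- number of conjugates of `T` -/
noncomputable def ncj (T : Subgroup Γ) : ℕ := Nat.card (Set.range fun s : Γ => cj s T)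

theorem mem_cj {s x : Γ} {T : Subgroup Γ} : x ∈ cj s T ↔ ∃ t ∈ T, s * t * s⁻¹ = x := by
  simp [cj, Subgroup.mem_map]

theorem mem_cj' {s x : Γ} {T : Subgroup Γ} : x ∈ cj s T ↔ s⁻¹ * x * s ∈ T := by
  rw [mem_cj]
  constructor
  · rintro ⟨t, ht, rfl⟩
    simpa [mul_assoc] using ht
  · intro h
    exact ⟨_, h, by group⟩

theorem cj_mul (s t : Γ) (T : Subgroup Γ) : cj (s * t) T = cj s (cj t T) := by
  ext x
  simp [mem_cj', mul_assoc]

theorem cj_one (T : Subgroup Γ) : cj 1 T = T := by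
  ext x
  simp [mem_cj']

end grp

section act
variable {G Γ W : Type*} [Group G] [Group Γ] [AddCommGroup W] [Module ℚ W]

/-- size of the orbit of `w` -/
noncomputable def osz (ρ : Representation ℚ G W) (w : W) : ℕ :=
  Nat.card (Set.range fun x : G => ρ x w)

/-- size of the orbit of the tuple `(u_i w)` -/
noncomputable def tsz (ρ : Representation ℚ G W) (w : W) {r : ℕ} (u : Fin r → G) : ℕ :=
  Nat.card (Set.range fun x : G => fun i => ρ (x * u i) w)

/-- stabiliser of the line of `w` (up to sign) -/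
def H1 (ρ : Representation ℚ G W) (w : W) : Subgroup G where
  carrier := {g | ρ g w = w ∨ ρ g w = -w}
  one_mem' := by simp
  mul_mem' := by
    rintro a b (ha | ha) (hb | hb) <;> simp [map_mul, ha, hb]
  inv_mem' := by
    rintro a (ha | ha)
    · left
      conv_lhs => rw [← ha]
      simp [← Module.End.mul_apply, ← map_mul]
    · right
      have : w = ρ a⁻¹ (ρ a w) := by simp [← Module.End.mul_apply, ← map_mul]
      rw [ha, map_neg] at this
      exact (neg_eq_iff_eq_neg.mpr this).symm ▸ rfl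

/-- `φ : G → Γ` is the quotient by the kernel of the action on the lines of the orbit of `w` -/
def IsQ (ρ : Representation ℚ G W) (w : W) (φ : G →* Γ) : Prop :=
  Function.Surjective φ ∧ ∀ g, φ g = 1 ↔ ∀ x, ρ (g * x) w = ρ x w ∨ ρ (g * x) w = -ρ x w

/-- `T` moves the line of `w` -/
def Moves (ρ : Representation ℚ G W) (w : W) (φ : G →* Γ) (T : Subgroup Γ) : Prop :=
  ∃ g, φ g ∈ T ∧ ρ g w ≠ w ∧ ρ g w ≠ -w

/-- the span of the `u w`, `φ u ∈ S` -/
def spn (ρ : Representation ℚ G W) (w : W) (φ : G →* Γ) (S : Subgroup Γ) : Submodule ℚ W :=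
  Submodule.span ℚ ((fun u => ρ u w) '' {u | φ u ∈ S})

end act

end Pool.Agent.Lib.MP_7ab245_nt.Solv.SX
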