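import Pool.Agent.Lib.MP_7ab245_nt.Solv.SX.X16
import Pool.Agent.Lib.MP_7ab245_nt.Solv.SX.Defs

set_option autoImplicit false

namespace Pool.Agent.Lib.MP_7ab245_nt.Solv.SX

/-- Let `S` be a subgroup of `Γ` acting faithfully on the lines `ρ s w`, `φ s ∈ S`, and `E ≤ S` elementary abelian of order `p ^ c`, `p` odd.  Then
`U = spn ρ w φ S` has dimension `≥ 2 c`.  Proof: `E~ = E.comap φ`, `P` a Sylow `p`-subgroup of `E~`; `P` maps onto the `p`-group `E` (`Sylow.mapSurjective`, or `|E~ : P|` is prime to `p`).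
`P` acts on `U` (`E~ ≤ S.comap φ`).  An element `v ∈ P ⊓ ker φ` acts on each generator `ρ u w` by a sign, so its square is trivial on `U`; its order is odd, so `v` is trivial on `U`.
An element of `P` trivial on `U` fixes the lines `ρ s w`, so it is in `ker φ`.  So the action of `P` on `U` factors through a faithful representation of `P / (P ⊓ ker φ) ≃ E`; use `two_mul_le_finrank`. -/
theorem two_mul_le_spn {G Γ W : Type*} [Group G] [Finite G] [Group Γ] [AddCommGroup W]
    [Module ℚ W] (ρ : Representation ℚ G W) (w : W) (φ : G →* Γ) (hφ : IsQ ρ w φ)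
    (S : Subgroup Γ)
    (hS : ∀ e ∈ S, e ≠ 1 → ∃ g s : G, φ g = e ∧ φ s ∈ S ∧ ρ (g * s) w ≠ ρ s w ∧
      ρ (g * s) w ≠ -ρ s w)
    (E : Subgroup Γ) (hES : E ≤ S) (p c : ℕ) (hp : p.Prime) (hp2 : p ≠ 2)
    (hE1 : ∀ a ∈ E, ∀ b ∈ E, a * b = b * a) (hE2 : ∀ a ∈ E, a ^ p = 1)
    (hE3 : Nat.card E = p ^ c) : 2 * c ≤ Module.finrank ℚ (spn ρ w φ S) := by
  classical
  have : Fact p.Prime := ⟨hp⟩
  set Et : Subgroup G := E.comap φ with hEt
  set ψ : Et →* E := φ.subgroupComap E with hψdef
  have hψ : Function.Surjective ψ := φ.subgroupComap_surjective_of_surjective E hφ.1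
  have hψv : ∀ g : Et, ((ψ g : E) : Γ) = φ g := fun _ => rfl
  have hFE : Finite E := Finite.of_surjective ψ hψ
  obtain ⟨P⟩ : Nonempty (Sylow p Et) := inferInstance
  have hPtop : (P : Subgroup Et).map ψ = ⊤ := by
    have h1 : IsPGroup p E := IsPGroup.of_card hE3
    have h2 : IsPGroup p (⊤ : Subgroup E) := h1.to_subgroup ⊤
    have h3 := (P.mapSurjective hψ).is_maximal' h2 le_top
    rw [← Sylow.coe_mapSurjective (p := p) hψ P]
    exact h3.symm
  have hsec : ∀ e : E, ∃ g : P, ψ g = e := by
    intro e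
    have h1 : e ∈ (P : Subgroup Et).map ψ := by rw [hPtop]; trivial
    obtain ⟨g, hg, hge⟩ := h1
    exact ⟨⟨g, hg⟩, hge⟩
  set U : Submodule ℚ W := spn ρ w φ S with hU
  have hgen : ∀ u : G, φ u ∈ S → ρ u w ∈ U := fun u hu =>
    Submodule.subset_span ⟨u, hu, rfl⟩
  have hfd : FiniteDimensional ℚ U := by
    rw [hU]
    unfold spn
    exact FiniteDimensional.span_of_finite ℚ (Set.toFinite _)
  have hinv : ∀ g : Et, ∀ v ∈ U, ρ g v ∈ U := by
    intro g v hv
    have hgS : φ g ∈ S := hES g.2
    rw [hU] at hv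
    unfold spn at hv
    refine Submodule.span_induction (p := fun v _ => ρ (g : G) v ∈ U) ?_ ?_ ?_ ?_ hv
    · rintro x ⟨u, hu, rfl⟩
      have h1 : ρ (g : G) (ρ u w) = ρ (g * u) w := by
        rw [map_mul, Module.End.mul_apply]
      change ρ (g : G) (ρ u w) ∈ U
      rw [h1]
      apply hgen
      rw [map_mul]
      exact S.mul_mem hgS hu
    · rw [map_zero]
      exact U.zero_mem
    · intro x y _ _ hx hy
      rw [map_add]
      exact U.add_mem hx hy
    · intro a x _ hx
      rw [map_smul]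
      exact U.smul_mem a hx
  let τ : P →* (U →ₗ[ℚ] U) :=
    { toFun := fun g => (ρ ((g : Et) : G)).restrict (hinv g)
      map_one' := by
        ext v
        simp
      map_mul' := fun g h => by
        ext v
        simp }
  have hτ : ∀ (g : P) (v : U), ((τ g v : U) : W) = ρ ((g : Et) : G) v := fun _ _ => rfl
  -- the kernel
  have hker1 : ∀ g : P, ψ g = 1 → τ g = 1 := by
    intro g hg
    have hφg : φ ((g : Et) : G) = 1 := by
      have := congrArg Subtype.val hg
      rw [hψv] at this
      exact this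
    have hsq : τ g * τ g = 1 := by
      ext v
      rw [Module.End.mul_apply, hτ, hτ, Module.End.one_apply]
      obtain ⟨v, hv⟩ := v
      change ρ ((g : Et) : G) (ρ ((g : Et) : G) v) = v
      rw [hU] at hv
      unfold spn at hv
      refine Submodule.span_induction (p := fun v _ =>
        ρ ((g : Et) : G) (ρ ((g : Et) : G) v) = v) ?_ ?_ ?_ ?_ hv
      · rintro x ⟨u, hu, rfl⟩
        change ρ ((g : Et) : G) (ρ ((g : Et) : G) (ρ u w)) = ρ u w
        have h1 := (hφ.2 _).1 hφg u
        rw [map_mul, Module.End.mul_apply] at h1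
        rcases h1 with h1 | h1
        · rw [h1, h1]
        · rw [h1, map_neg, h1, neg_neg]
      · simp
      · intro x y _ _ hx hy
        rw [map_add, map_add, hx, hy]
      · intro a x _ hx
        rw [map_smul, map_smul, hx]
    obtain ⟨k, hk⟩ := P.isPGroup' g
    have hpk : (τ g) ^ (p ^ k) = 1 := by rw [← map_pow, hk, map_one]
    have h2 : (τ g) ^ 2 = 1 := by rw [pow_two, hsq]
    have hodd : Odd (p ^ k) := (hp.odd_of_ne_two hp2).pow
    obtain ⟨m, hm⟩ := hodd
    rw [hm, pow_succ, pow_mul, h2, one_pow, one_mul] at hpk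
    exact hpk
  have hker2 : ∀ g : P, τ g = 1 → ψ g = 1 := by
    intro g hg
    by_contra hne
    have hne' : φ ((g : Et) : G) ≠ 1 := by
      intro h
      apply hne
      apply Subtype.ext
      rw [hψv]
      exact h
    obtain ⟨g', s, h1, h2, h3, h4⟩ := hS (φ ((g : Et) : G)) (hES (g : Et).2) hne'
    have h5 : φ (((g : Et) : G)⁻¹ * g') = 1 := by
      rw [map_mul, map_inv, h1, inv_mul_cancel]
    have h6 := (hφ.2 _).1 h5 s
    have h7 : ρ ((g : Et) : G) (ρ s w) = ρ s w := by
      have := congrArg Subtype.val (LinearMap.congr_fun hg ⟨ρ s w, hgen s h2⟩)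
      rw [hτ] at this
      exact this
    have h8 : ρ (g' * s) w = ρ ((g : Et) : G) (ρ (((g : Et) : G)⁻¹ * g' * s) w) := by
      rw [← Module.End.mul_apply, ← map_mul]
      congr 2
      group
    rcases h6 with h6 | h6
    · rw [h6, h7] at h8
      exact h3 h8
    · rw [h6, map_neg, h7] at h8
      exact h4 h8
  choose s hs using hsec
  have hτs : ∀ a b : P, ψ a = ψ b → τ a = τ b := by
    intro a b hab
    have h1 : ψ ((a * b⁻¹ : P) : Et) = 1 := by
      have : ((a * b⁻¹ : P) : Et) = (a : Et) * (b : Et)⁻¹ := rfl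
      rw [this, map_mul, map_inv, hab, mul_inv_cancel]
    have h2 := hker1 _ h1
    have h3 : a = (a * b⁻¹) * b := by group
    rw [h3, map_mul, h2, one_mul]
  let σ : Representation ℚ E U :=
    { toFun := fun e => τ (s e)
      map_one' := by
        apply hker1
        exact hs 1
      map_mul' := fun a b => by
        rw [← map_mul]
        apply hτs
        have : ((s a * s b : P) : Et) = (s a : Et) * (s b : Et) := rfl
        rw [this, map_mul, hs, hs, hs] }
  have hσ : Function.Injective σ := by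
    rw [injective_iff_map_eq_one]
    intro e he
    have h1 : ψ (s e) = 1 := hker2 _ he
    rw [hs] at h1
    exact h1
  exact two_mul_le_finrank p c hp hp2 (fun a b => Subtype.ext (hE1 a a.2 b b.2))
    (fun a => Subtype.ext (hE2 a a.2)) hE3 σ hσ

end Pool.Agent.Lib.MP_7ab245_nt.Solv.SX
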