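import Pool.Agent.Lib.MP_7ab245_nt.Solv.SX.X06
import Pool.Agent.Lib.MP_7ab245_nt.Solv.SX.X07
import Pool.Agent.Lib.MP_7ab245_nt.Solv.SX.X08
import Pool.Agent.Lib.MP_7ab245_nt.Solv.SX.X09
import Pool.Agent.Lib.MP_7ab245_nt.Solv.SX.X13
import Pool.Agent.Lib.MP_7ab245_nt.Solv.SX.X17
import Pool.Agent.Lib.MP_7ab245_nt.Solv.SX.X18
import Pool.Agent.Lib.MP_7ab245_nt.Solv.SX.X19
import Pool.Agent.Lib.MP_7ab245_nt.Solv.SX.X20
import Pool.Agent.Lib.MP_7ab245_nt.Solv.SX.X02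

set_option autoImplicit false

namespace Pool.Agent.Lib.MP_7ab245_nt.Solv.SX

private theorem x21_arith (C : ℕ) : ∃ n₀ : ℕ, 1 ≤ n₀ ∧
    ∀ n, n₀ ≤ n → C * (Nat.log 2 n + 1) ^ 3 ≤ n := by
  have h1 := tendsto_pow_const_div_const_pow_of_one_lt 3 (r := (2 : ℝ)) (by norm_num)
  have hC : (0 : ℝ) < 1 / (2 * ((C : ℝ) + 1)) := by positivity
  have h2 := h1.eventually (gt_mem_nhds hC)
  obtain ⟨k₀, hk₀⟩ := Filter.eventually_atTop.1 h2
  refine ⟨2 ^ k₀, Nat.one_le_two_pow, fun n hn => ?_⟩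
  have hn0 : n ≠ 0 := by
    have := Nat.one_le_two_pow (n := k₀)
    omega
  have hk : k₀ ≤ Nat.log 2 n := Nat.le_log_of_pow_le (by norm_num) hn
  have h3 := hk₀ (Nat.log 2 n + 1) (by omega)
  have h4 : 2 ^ Nat.log 2 n ≤ n := Nat.pow_log_le_self 2 hn0
  set k := Nat.log 2 n with hkdef
  have h5 : (0 : ℝ) < 2 ^ (k + 1) := by positivity
  rw [div_lt_div_iff₀ h5 (by positivity), one_mul] at h3
  have h6 : ((C : ℝ) + 1) * ((k + 1 : ℕ) : ℝ) ^ 3 < 2 ^ k := by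
    rw [pow_succ (2 : ℝ) k] at h3
    nlinarith
  have h7 : ((C * (k + 1) ^ 3 : ℕ) : ℝ) ≤ ((2 ^ k : ℕ) : ℝ) := by
    push_cast at h6 ⊢
    have : (0 : ℝ) ≤ ((k : ℝ) + 1) ^ 3 := by positivity
    nlinarith
  have h8 : C * (k + 1) ^ 3 ≤ 2 ^ k := by exact_mod_cast h7
  exact h8.trans h4

/-- Case 2b: at least three conjugates of `T` move the line of `w`, `|T| ≤ B`.  Choose three, `T₁, T₂, T₃` (`MinIn`, `NonAb`, same order, same index of the centralizer: `X02`),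
`S = ⨆ T_i`; `faithful3`, `exists_odd_prime`, `exists_elementary3`, `two_mul_le_spn` with `c = 3`: `6 ≤ finrank (spn ρ w φ S)`; `u` by `exists_indep`; `tsz_le`:
`tsz ≤ 2 ^ 6 * n * (l A) ^ 3`, `l ≤ n (log₂ n + 1)`, `A = |Aut T| ≤ B ^ B` (`MulAut T` embeds in functions `T → T`); `≤ n ^ 5` as soon as `64 A ^ 3 (log₂ n + 1) ^ 3 ≤ n`. -/
theorem case2b (B : ℕ) : ∃ n₀ : ℕ, ∀ {G Γ W : Type*} [Group G] [Finite G] [Group Γ]
    [AddCommGroup W] [Module ℚ W] (ρ : Representation ℚ G W) (w : W) (φ : G →* Γ),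
    IsQ ρ w φ → n₀ ≤ osz ρ w → ∀ {N T : Subgroup Γ}, MinNormal N → MinIn N T → NonAb T →
    2 < Nat.card {T' : Subgroup Γ // (∃ s, T' = cj s T) ∧ Moves ρ w φ T'} → Nat.card T ≤ B →
    ∃ u : Fin 6 → G, LinearIndependent ℚ (fun i => ρ (u i) w) ∧ tsz ρ w u ≤ osz ρ w ^ 5 := by
  classical
  obtain ⟨n₀, hn₀1, hn₀⟩ := x21_arith (64 * (B ^ B) ^ 3)
  refine ⟨n₀, ?_⟩
  intro G Γ W _ _ _ _ _ ρ w φ hφ hosz N T hN hT hna hcard hB
  have hΓ : Finite Γ := Finite.of_surjective φ hφ.1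
  obtain ⟨n, hn⟩ : ∃ n, n = osz ρ w := ⟨_, rfl⟩
  have hn1 : 1 ≤ n := by omega
  -- three conjugates
  obtain ⟨X, hX⟩ : ∃ X : Set (Subgroup Γ), X = {T' | (∃ s, T' = cj s T) ∧ Moves ρ w φ T'} :=
    ⟨_, rfl⟩
  have hcard' : 2 < Nat.card X := by rw [hX]; exact hcard
  have hXfin : Finite X := Nat.finite_of_card_ne_zero (by omega)
  have hXft : Fintype X := Fintype.ofFinite X
  rw [Nat.card_eq_fintype_card] at hcard'
  obtain ⟨emb⟩ : Nonempty (Fin 3 ↪ X) := by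
    apply Function.Embedding.nonempty_of_card_le
    rw [Fintype.card_fin]
    exact hcard'
  have hTi : ∀ i, (∃ s, (emb i : Subgroup Γ) = cj s T) ∧ Moves ρ w φ (emb i : Subgroup Γ) := by
    intro i
    have h0 : ((emb i : Subgroup Γ)) ∈ {T' | (∃ s, T' = cj s T) ∧ Moves ρ w φ T'} := by
      rw [← hX]
      exact (emb i).2
    exact h0
  choose s hs using fun i => (hTi i).1
  have hinj : Function.Injective (fun i => ((emb i : Subgroup Γ))) := fun i j hij =>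
    emb.injective (Subtype.ext hij)
  have hMin : ∀ i, MinIn N (emb i : Subgroup Γ) := fun i => by
    rw [hs i]; exact minIn_cj hN.1 hT (s i)
  have hNA : ∀ i, NonAb (emb i : Subgroup Γ) := fun i => by
    rw [hs i]; exact nonAb_cj hna (s i)
  have hMov : ∀ i, Moves ρ w φ (emb i : Subgroup Γ) := fun i => (hTi i).2
  obtain ⟨p, hp, hp2, hpT⟩ := exists_odd_prime hN hT hna
  obtain ⟨E, hES, hE1, hE2, hE3⟩ := exists_elementary3 hN (fun i => (emb i : Subgroup Γ)) hinj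
    hMin hNA p hp (fun i => by rw [hs i, card_cj]; exact hpT)
  have hdim := two_mul_le_spn ρ w φ hφ (⨆ i, (emb i : Subgroup Γ))
    (fun e he he1 => faithful3 ρ w φ hφ hN (fun i => (emb i : Subgroup Γ)) hinj hMin hNA hMov e
      he he1) E hES p 3 hp hp2 hE1 hE2 hE3
  have hfin : FiniteDimensional ℚ (Submodule.span ℚ ((fun u => ρ u w) ''
      {u | φ u ∈ ⨆ i, (emb i : Subgroup Γ)})) :=
    FiniteDimensional.span_of_finite ℚ (Set.toFinite _)
  obtain ⟨u, hu, hind⟩ := exists_indep (fun u : G => ρ u w)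
    {u | φ u ∈ ⨆ i, (emb i : Subgroup Γ)} 6 hfin hdim
  refine ⟨u, hind, ?_⟩
  have h1 := tsz_le ρ w φ hφ (fun i => (emb i : Subgroup Γ)) u hu
  have hidx : ∀ j, (Subgroup.centralizer ((emb j : Subgroup Γ) : Set Γ)).index ≤
      (n * (Nat.log 2 n + 1)) * B ^ B := by
    intro j
    rw [hs j, index_centralizer_cj]
    refine (index_centralizer_le T).trans ?_
    have h2 : ncj T ≤ n * (Nat.log 2 n + 1) := by
      apply le_of_two_pow_le_factorial hn1
      refine (two_pow_ncj_le hN.1 hT hna).trans ?_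
      refine (Subgroup.card_le_card_group N).trans ?_
      rw [hn]
      exact card_le_factorial ρ w φ hφ
    have h3 : Nat.card (MulAut T) ≤ B ^ B := by
      have h4 : Nat.card (MulAut T) ≤ Nat.card (T → T) :=
        Nat.card_le_card_of_injective (fun f : MulAut T => (f : T → T)) DFunLike.coe_injective
      have h5 : Nat.card (T → T) = Nat.card T ^ Nat.card T := Nat.card_fun
      have h6 : 0 < Nat.card T := Nat.card_pos
      rw [h5] at h4
      calc Nat.card (MulAut T) ≤ Nat.card T ^ Nat.card T := h4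
        _ ≤ B ^ Nat.card T := Nat.pow_le_pow_left hB _
        _ ≤ B ^ B := Nat.pow_le_pow_right (by omega) hB
    exact Nat.mul_le_mul h2 h3
  have hprod : ∏ j : Fin 3, (Subgroup.centralizer ((emb j : Subgroup Γ) : Set Γ)).index ≤
      ((n * (Nat.log 2 n + 1)) * B ^ B) ^ 3 := by
    have := Finset.prod_le_pow_card (Finset.univ : Finset (Fin 3))
      (fun j => (Subgroup.centralizer ((emb j : Subgroup Γ) : Set Γ)).index)
      ((n * (Nat.log 2 n + 1)) * B ^ B) (fun j _ => hidx j)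
    rwa [Finset.card_univ, Fintype.card_fin] at this
  have harith := hn₀ n (by omega)
  rw [← hn] at h1 ⊢
  calc tsz ρ w u ≤ 2 ^ 6 * n * ∏ j : Fin 3,
        (Subgroup.centralizer ((emb j : Subgroup Γ) : Set Γ)).index := h1
    _ ≤ 2 ^ 6 * n * ((n * (Nat.log 2 n + 1)) * B ^ B) ^ 3 := Nat.mul_le_mul_left _ hprod
    _ = n ^ 4 * (64 * (B ^ B) ^ 3 * (Nat.log 2 n + 1) ^ 3) := by ring
    _ ≤ n ^ 4 * n := Nat.mul_le_mul_left _ harith
    _ = n ^ 5 := by ring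

end Pool.Agent.Lib.MP_7ab245_nt.Solv.SX
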