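import Pool.Agent.Lib.MP_7ab245_nt.Solv.SX.X01
import Pool.Agent.Lib.MP_7ab245_nt.Solv.SX.X10
import Pool.Agent.Lib.MP_7ab245_nt.Solv.SX.X15
import Pool.Agent.Lib.MP_7ab245_nt.Solv.SX.X21

set_option autoImplicit false

namespace Pool.Agent.Lib.MP_7ab245_nt.Solv.SX

private theorem card_mulAut_le {T : Type*} [Group T] [Finite T] {B : ℕ} (h : Nat.card T ≤ B) :
    Nat.card (MulAut T) ≤ B ^ B := by
  have h1 : Nat.card (MulAut T) ≤ Nat.card (T → T) :=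
    Nat.card_le_card_of_injective (fun f : MulAut T => (f : T → T)) DFunLike.coe_injective
  have h2 : Nat.card (T → T) = Nat.card T ^ Nat.card T := by
    rw [Nat.card_fun]
  have h3 : 0 < Nat.card T := Nat.card_pos
  calc Nat.card (MulAut T) ≤ Nat.card T ^ Nat.card T := h1.trans_eq h2
    _ ≤ B ^ Nat.card T := Nat.pow_le_pow_left h _
    _ ≤ B ^ B := Nat.pow_le_pow_right (h3.trans_le h) h

/-- Assembly.  Replace `T` by `(T.map N.subtype)` (`X01`) and then by a conjugate moving the line of `w` (`exists_moves`, `X02`).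
`|T| > 3 ^ (κ+4)²`: `case1`, `r = κ + 4`.  Otherwise `|Aut T| ≤ B ^ B`, `B = 3 ^ (κ+4)²`; at most two conjugates move the line: `case2a`, `r = 2`, `K = 8 B ^ B`; else `case2b B`, `r = 6`. -/
theorem groupX (κ : ℕ) : ∃ K n₀ : ℕ, ∀ {G Γ W : Type*} [Group G] [Finite G] [Group Γ]
    [AddCommGroup W] [Module ℚ W] (ρ : Representation ℚ G W) (w : W) (φ : G →* Γ),
    IsQ ρ w φ → n₀ ≤ osz ρ w → ∀ (N : Subgroup Γ) (T : Subgroup N), MinNormal N → MinNormal T →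
    (¬ ∀ a b : T, a * b = b * a) → Nat.card (MulAut T) ≤ osz ρ w ^ κ →
    ∃ r : ℕ, 2 ≤ r ∧ r ≤ κ + 6 ∧ ∃ u : Fin r → G, LinearIndependent ℚ (fun i => ρ (u i) w) ∧
      tsz ρ w u ≤ K * osz ρ w ^ (r - 1) := by
  set B : ℕ := 3 ^ (κ + 4) ^ 2 with hB
  obtain ⟨n₁, h₁⟩ := case1 κ
  obtain ⟨n₂, h₂⟩ := case2b B
  refine ⟨8 * B ^ B, max n₁ n₂, ?_⟩
  intro G Γ W _ _ _ _ _ ρ w φ hφ hn N T hN hT hna hAut
  have hn1 : n₁ ≤ osz ρ w := (le_max_left _ _).trans hn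
  have hn2 : n₂ ≤ osz ρ w := (le_max_right _ _).trans hn
  have hfin : Finite Γ := Finite.of_surjective φ hφ.1
  have hT0 := minIn_map N T hT
  have hna0 := nonAb_map N T hna
  have hAut0 := card_mulAut_map N T
  obtain ⟨s, hs⟩ := exists_moves ρ w φ hφ hN hT0
  have hT1 : MinIn N (cj s (T.map N.subtype)) := minIn_cj hN.1 hT0 s
  have hna1 : NonAb (cj s (T.map N.subtype)) := nonAb_cj hna0 s
  have hAut1 : Nat.card (MulAut (cj s (T.map N.subtype))) ≤ osz ρ w ^ κ := by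
    rw [card_mulAut_cj, hAut0]; exact hAut
  generalize cj s (T.map N.subtype) = T' at hs hT1 hna1 hAut1
  have hBpos : 0 < B := by rw [hB]; positivity
  have hK : 1 ≤ 8 * B ^ B := by
    have : 0 < B ^ B := pow_pos hBpos _
    omega
  by_cases hbig : B < Nat.card T'
  · obtain ⟨u, hu, hu'⟩ := h₁ ρ w φ hφ hn1 hN hT1 hna1 hs hbig hAut1
    refine ⟨κ + 4, by omega, by omega, u, hu, ?_⟩
    calc tsz ρ w u ≤ osz ρ w ^ (κ + 3) := hu'
      _ ≤ 8 * B ^ B * osz ρ w ^ (κ + 4 - 1) := by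
        rw [show κ + 4 - 1 = κ + 3 by omega]
        exact Nat.le_mul_of_pos_left _ hK
  · push Not at hbig
    by_cases hk : Nat.card {T'' : Subgroup Γ // (∃ s, T'' = cj s T') ∧ Moves ρ w φ T''} ≤ 2
    · obtain ⟨u, hu, hu'⟩ := case2a ρ w φ hφ T' hs hk
      refine ⟨2, le_refl _, by omega, u, hu, hu'.trans ?_⟩
      rw [show 2 - 1 = 1 by norm_num, pow_one]
      exact Nat.mul_le_mul_right _ (Nat.mul_le_mul_left _ (card_mulAut_le hbig))
    · push Not at hk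
      obtain ⟨u, hu, hu'⟩ := h₂ ρ w φ hφ hn2 hN hT1 hna1 hk hbig
      refine ⟨6, by omega, by omega, u, hu, ?_⟩
      calc tsz ρ w u ≤ osz ρ w ^ 5 := hu'
        _ ≤ 8 * B ^ B * osz ρ w ^ (6 - 1) := by
          rw [show 6 - 1 = 5 by norm_num]
          exact Nat.le_mul_of_pos_left _ hK

end Pool.Agent.Lib.MP_7ab245_nt.Solv.SX
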