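import Pool.Agent.Lib.MP_7ab245_nt.Solv.SX.Defs

set_option autoImplicit false

namespace Pool.Agent.Lib.MP_7ab245_nt.Solv.SX

/-- Two different minimal ones commute: `T ⊓ T'` is normalised by `N`, so it is `⊥` (if it is `T` then `T ≤ T'` and
`T = T'` by minimality of `T'`); `a * b * a⁻¹ * b⁻¹` is in `T ⊓ T'`. -/
theorem comm_of_ne {Γ : Type*} [Group Γ] {N T T' : Subgroup Γ} (hT : MinIn N T)
    (hT' : MinIn N T') (h : T ≠ T') : ∀ a ∈ T, ∀ b ∈ T', a * b = b * a := by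
  obtain ⟨hTN, hT1, hT2, hT3⟩ := hT
  obtain ⟨hTN', hT1', hT2', hT3'⟩ := hT'
  have hinf : T ⊓ T' = ⊥ := by
    have hn : ∀ n ∈ N, ∀ t ∈ T ⊓ T', n * t * n⁻¹ ∈ T ⊓ T' := fun n hn t ht =>
      Subgroup.mem_inf.mpr ⟨hT2 n hn t (Subgroup.mem_inf.mp ht).1,
        hT2' n hn t (Subgroup.mem_inf.mp ht).2⟩
    rcases hT3 (T ⊓ T') inf_le_left hn with h1 | h1
    · exact h1
    · exfalso
      have hle : T ≤ T' := inf_eq_left.mp h1
      rcases hT3' T hle hT2 with h2 | h2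
      · exact hT1 h2
      · exact h h2
  intro a ha b hb
  have h1 : a * b * a⁻¹ * b⁻¹ ∈ T := by
    have h2 : b * a⁻¹ * b⁻¹ ∈ T := hT2 b (hTN' hb) _ (T.inv_mem ha)
    have h3 := T.mul_mem ha h2
    have h4 : a * (b * a⁻¹ * b⁻¹) = a * b * a⁻¹ * b⁻¹ := by group
    rwa [h4] at h3
  have h2 : a * b * a⁻¹ * b⁻¹ ∈ T' := T'.mul_mem (hT2' a (hTN ha) b hb) (T'.inv_mem hb)
  have h3 : a * b * a⁻¹ * b⁻¹ ∈ T ⊓ T' := Subgroup.mem_inf.mpr ⟨h1, h2⟩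
  rw [hinf, Subgroup.mem_bot] at h3
  have h4 : a * b = (a * b * a⁻¹ * b⁻¹) * (b * a) := by group
  rw [h4, h3, one_mul]

end Pool.Agent.Lib.MP_7ab245_nt.Solv.SX
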