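import Pool.Agent.Lib.MP_7ab245_nt.Solv.SX.Defs

set_option autoImplicit false

namespace Pool.Agent.Lib.MP_7ab245_nt.Solv.SX

/-- `N` is generated by the conjugates of `T`: their supremum is normal in `Γ`, not `⊥` and `≤ N`. -/
theorem iSup_cj {Γ : Type*} [Group Γ] {N T : Subgroup Γ} (hN : MinNormal N) (hT : MinIn N T) :
    ⨆ s : Γ, cj s T = N := by
  have hle : ⨆ s : Γ, cj s T ≤ N := by
    refine iSup_le fun s x hx => ?_
    obtain ⟨t, ht, rfl⟩ := mem_cj.1 hx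
    exact hN.1.conj_mem t (hT.1 ht) s
  have hmap : ∀ g : Γ, (⨆ s : Γ, cj s T).map (MulAut.conj g).toMonoidHom ≤ ⨆ s : Γ, cj s T := by
    intro g
    rw [Subgroup.map_iSup]
    refine iSup_le fun s => ?_
    have h : (cj s T).map (MulAut.conj g).toMonoidHom = cj (g * s) T := by
      rw [cj_mul]
      rfl
    rw [h]
    exact le_iSup (fun s : Γ => cj s T) (g * s)
  have hnorm : (⨆ s : Γ, cj s T).Normal := by
    refine ⟨fun x hx g => ?_⟩
    exact hmap g ⟨x, hx, rfl⟩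
  have hne : ⨆ s : Γ, cj s T ≠ ⊥ := by
    intro h
    apply hT.2.1
    have h1 : T ≤ ⨆ s : Γ, cj s T := by
      have := le_iSup (fun s : Γ => cj s T) 1
      rwa [cj_one] at this
    rw [h] at h1
    exact le_bot_iff.1 h1
  rcases hN.2.2 _ hnorm hle with h | h
  · exact absurd h hne
  · exact h

/-- Some conjugate of `T` moves the line of `w`.  Otherwise `φ⁻¹(cj s T) ≤ H1 ρ w` for all `s`, so `φ⁻¹ N ≤ H1 ρ w`
(`φ⁻¹ N` is generated by the `φ⁻¹(cj s T)`, or: the set of `γ ∈ Γ` all of whose preimages are in `H1` is a subgroup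
containing all `cj s T`, note that `ker φ ≤ H1`).
As `N` is normal, for `g` with `φ g ∈ N` and every `x`: `x⁻¹ g x` is in `H1`, i.e. `ρ (g * x) w = ± ρ x w`, so `φ g = 1`: `N = ⊥`. -/
theorem exists_moves {G Γ W : Type*} [Group G] [Group Γ] [AddCommGroup W] [Module ℚ W]
    (ρ : Representation ℚ G W) (w : W) (φ : G →* Γ) (hφ : IsQ ρ w φ) {N T : Subgroup Γ}
    (hN : MinNormal N) (hT : MinIn N T) : ∃ s : Γ, Moves ρ w φ (cj s T) := by
  by_contra hcon
  push Not at hcon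
  have hK : ∀ s : Γ, ∀ g : G, φ g ∈ cj s T → g ∈ H1 ρ w := by
    intro s g hg
    by_contra h
    apply hcon s
    refine ⟨g, hg, fun h1 => h (Or.inl h1), fun h1 => h (Or.inr h1)⟩
  have hker : ∀ g : G, φ g = 1 → g ∈ H1 ρ w := by
    intro g hg
    have h := (hφ.2 g).1 hg 1
    rw [mul_one, map_one] at h
    exact h
  have hall : ∀ γ ∈ N, ∀ g : G, φ g = γ → g ∈ H1 ρ w := by
    intro γ hγ
    rw [← iSup_cj hN hT] at hγ
    refine Subgroup.iSup_induction (fun s : Γ => cj s T)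
      (C := fun γ => ∀ g : G, φ g = γ → g ∈ H1 ρ w) hγ ?_ ?_ ?_
    · intro s x hx g hg
      exact hK s g (by rw [hg]; exact hx)
    · exact hker
    · intro x y hx hy g hg
      obtain ⟨g', hg'⟩ := hφ.1 y
      have h1 : g * g'⁻¹ ∈ H1 ρ w := hx _ (by rw [map_mul, map_inv, hg, hg']; group)
      have h2 : g' ∈ H1 ρ w := hy _ hg'
      have h3 := (H1 ρ w).mul_mem h1 h2
      rwa [inv_mul_cancel_right] at h3
  apply hN.2.1
  rw [Subgroup.eq_bot_iff_forall]
  intro γ hγ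
  obtain ⟨g, rfl⟩ := hφ.1 γ
  rw [hφ.2]
  intro x
  have h1 : x⁻¹ * g * x ∈ H1 ρ w := by
    refine hall (φ (x⁻¹ * g * x)) ?_ _ rfl
    have := hN.1.conj_mem (φ g) hγ (φ x)⁻¹
    rw [inv_inv] at this
    rw [map_mul, map_mul, map_inv]
    exact this
  have e : g * x = x * (x⁻¹ * g * x) := by group
  have h2 : ρ (x⁻¹ * g * x) w = w ∨ ρ (x⁻¹ * g * x) w = -w := h1
  rw [e, map_mul, Module.End.mul_apply]
  rcases h2 with h2 | h2
  · left
    rw [h2]
  · right
    rw [h2, map_neg]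

end Pool.Agent.Lib.MP_7ab245_nt.Solv.SX
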