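import Pool.Agent.Lib.MP_7ab245_nt.Solv.SX.X02
import Pool.Agent.Lib.MP_7ab245_nt.Solv.SX.X03
import Pool.Agent.Lib.MP_7ab245_nt.Solv.SX.X04

set_option autoImplicit false

namespace Pool.Agent.Lib.MP_7ab245_nt.Solv.SX

/-- `T` is simple: the normalizer of `R` contains `T` and all the conjugates of `T` different from `T`
(they commute with `T ≥ R`), so it contains `N` by `iSup_cj`; use minimality of `T`. -/
theorem simple_of_min {Γ : Type*} [Group Γ] {N T R : Subgroup Γ} (hN : MinNormal N)
    (hT : MinIn N T) (hR : R ≤ T) (hRT : ∀ t ∈ T, ∀ x ∈ R, t * x * t⁻¹ ∈ R) : R = ⊥ ∨ R = T := by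
  have hle : N ≤ Subgroup.normalizer (R : Set Γ) := by
    rw [← iSup_cj hN hT]
    refine iSup_le fun s => ?_
    by_cases he : cj s T = T
    · rw [he]
      intro t ht
      rw [Subgroup.mem_normalizer_iff]
      intro x
      constructor
      · intro hx
        exact hRT t ht x hx
      · intro hx
        have h1 := hRT t⁻¹ (T.inv_mem ht) _ hx
        have h2 : t⁻¹ * (t * x * t⁻¹) * t⁻¹⁻¹ = x := by group
        rwa [h2] at h1
    · have hc := comm_of_ne hT (minIn_cj hN.1 hT s) (Ne.symm he)
      intro y hy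
      rw [Subgroup.mem_normalizer_iff]
      intro x
      constructor
      · intro hx
        have h1 := hc x (hR hx) y hy
        rw [← h1, mul_inv_cancel_right]
        exact hx
      · intro hx
        have h1 := hc _ (hR hx) y hy
        have h2 : y * x * y⁻¹ * y = y * x := by group
        rw [h2] at h1
        have h3 := mul_left_cancel h1
        rw [h3]
        exact hx
  refine hT.2.2.2 R hR ?_
  intro n hn t ht
  exact (Subgroup.mem_normalizer_iff.1 (hle hn) t).1 ht

/-- trivial centre: the centre of `T` is normalised by `T`, so it is `⊥` or `T`; `T` is not abelian. -/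
theorem centre_trivial {Γ : Type*} [Group Γ] {N T : Subgroup Γ} (hN : MinNormal N)
    (hT : MinIn N T) (hna : NonAb T) {x : Γ} (hx : x ∈ T) (h : ∀ t ∈ T, x * t = t * x) : x = 1 := by
  have hm : ∀ y, y ∈ T ⊓ Subgroup.centralizer (T : Set Γ) ↔ y ∈ T ∧ ∀ t ∈ T, t * y = y * t := by
    intro y
    rw [Subgroup.mem_inf, Subgroup.mem_centralizer_iff]
    rfl
  have hconj : ∀ t ∈ T, ∀ y ∈ T ⊓ Subgroup.centralizer (T : Set Γ),
      t * y * t⁻¹ ∈ T ⊓ Subgroup.centralizer (T : Set Γ) := by
    intro t ht y hy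
    have h2 := (hm y).1 hy
    rw [h2.2 t ht, mul_inv_cancel_right]
    exact hy
  rcases simple_of_min (R := T ⊓ Subgroup.centralizer (T : Set Γ)) hN hT inf_le_left hconj with h1 | h1
  · have h2 : x ∈ T ⊓ Subgroup.centralizer (T : Set Γ) := (hm x).2 ⟨hx, fun t ht => (h t ht).symm⟩
    rw [h1] at h2
    exact Subgroup.mem_bot.1 h2
  · exfalso
    obtain ⟨a, ha, b, hb, hab⟩ := hna
    have h2 := ha
    rw [← h1, hm] at h2
    exact hab (h2.2 b hb).symm

end Pool.Agent.Lib.MP_7ab245_nt.Solv.SX
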