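import Pool.Agent.Lib.MP_7ab245_nt.Solv.SX.X01
import Pool.Agent.Lib.MP_7ab245_nt.Solv.SX.X05

set_option autoImplicit false

namespace Pool.Agent.Lib.MP_7ab245_nt.Solv.SX

/-- `G` has only small nonabelian composition factors: `|Aut Q| ≤ [Q : P] ^ κ` for every nonabelian composition factor `Q` of `G` and every
proper subgroup `P` of `Q` -/
def SmallFactors (κ : ℕ) (G : Type*) [Group G] : Prop :=
  ∀ A : Subgroup G, A.IsSubnormal → ∀ (B : Subgroup A) [B.Normal], IsSimpleGroup (A ⧸ B) →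
    (∃ a b : A ⧸ B, a * b ≠ b * a) → ∀ P : Subgroup (A ⧸ B), P ≠ ⊤ →
    Nat.card (MulAut (A ⧸ B)) ≤ P.index ^ κ

/-- the preimage of a subnormal subgroup is subnormal -/
theorem isSubnormal_comap {G Γ : Type*} [Group G] [Group Γ] (φ : G →* Γ) {A : Subgroup Γ}
    (hA : A.IsSubnormal) : (A.comap φ).IsSubnormal := by
  induction hA with
  | top =>
    rw [Subgroup.comap_top]
    exact Subgroup.IsSubnormal.top
  | step H K hle _ hN ih =>
    refine Subgroup.IsSubnormal.step _ _ (Subgroup.comap_mono hle) ih ?_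
    rw [Subgroup.normal_subgroupOf_iff (Subgroup.comap_mono hle)]
    intro h k hh hk
    rw [Subgroup.normal_subgroupOf_iff hle] at hN
    rw [Subgroup.mem_comap] at hh hk ⊢
    rw [map_mul, map_mul, map_inv]
    exact hN _ _ hh hk

private theorem x23_exists_min {Γ : Type*} [Group Γ] [Finite Γ] [Nontrivial Γ] :
    ∃ N : Subgroup Γ, MinNormal N := by
  obtain ⟨N, hN, hmin⟩ := (Set.toFinite {N : Subgroup Γ | N.Normal ∧ N ≠ ⊥}).exists_minimal
    ⟨⊤, inferInstanceAs (⊤ : Subgroup Γ).Normal, top_ne_bot⟩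
  refine ⟨N, hN.1, hN.2, fun M hM hle => ?_⟩
  by_cases h : M = ⊥
  · exact Or.inl h
  · exact Or.inr (le_antisymm hle (hmin ⟨hM, h⟩ hle))

/-- Choose `N` minimal normal in `Γ`, `T` minimal normal in `N`, `T' = T.map N.subtype` (`minIn_map`).  `T` is not abelian: otherwise `N = ⨆ cj s T'` (`iSup_cj`) is generated by
abelian subgroups which commute with each other (`comm_of_ne`), so `N` is abelian, hence solvable.  `T` is simple (`simple_of_min`).  `A = T'.comap φ` is subnormal in `G`, `B` = kernel of `A → T'`, `A ⧸ B ≃* T' ≃* T`.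
`T'` is nontrivial and acts faithfully on `Y`, so it moves some `y`; `P` = stabiliser of `y` (transported to `A ⧸ B`) is proper, of index `≤ |Y|`. -/
theorem exists_small (κ : ℕ) {G Γ Y : Type*} [Group G] [Finite G] [Group Γ] [Nontrivial Γ]
    [Finite Y] [MulAction Γ Y] [FaithfulSMul Γ Y] (φ : G →* Γ) (hφ : Function.Surjective φ)
    (hsol : ∀ N : Subgroup Γ, N.Normal → IsSolvable N → N = ⊥) (hG : SmallFactors κ G) :
    ∃ N : Subgroup Γ, MinNormal N ∧ ∃ T : Subgroup N, MinNormal T ∧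
      (¬ ∀ a b : T, a * b = b * a) ∧ Nat.card (MulAut T) ≤ Nat.card Y ^ κ := by
  haveI : Finite Γ := Finite.of_surjective φ hφ
  obtain ⟨N, hN⟩ := x23_exists_min (Γ := Γ)
  haveI : Nontrivial N := (Subgroup.nontrivial_iff_ne_bot N).2 hN.2.1
  obtain ⟨T, hT⟩ := x23_exists_min (Γ := N)
  have hT' := minIn_map N T hT
  -- `T` is not abelian
  have hna : ¬ ∀ a b : T, a * b = b * a := by
    intro hab
    have hcomm : ∀ s u : Γ, ∀ a ∈ cj s (T.map N.subtype), ∀ b ∈ cj u (T.map N.subtype),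
        a * b = b * a := by
      intro s u a ha b hb
      by_cases he : cj s (T.map N.subtype) = cj u (T.map N.subtype)
      · rw [← he] at hb
        obtain ⟨_, ⟨a0, ha0, rfl⟩, rfl⟩ := mem_cj.1 ha
        obtain ⟨_, ⟨b0, hb0, rfl⟩, rfl⟩ := mem_cj.1 hb
        have h1 := congrArg (fun t : T => ((t : N) : Γ)) (hab ⟨a0, ha0⟩ ⟨b0, hb0⟩)
        have h2 : (a0 : Γ) * (b0 : Γ) = (b0 : Γ) * (a0 : Γ) := h1
        have h3 : s * (a0 : Γ) * s⁻¹ * (s * (b0 : Γ) * s⁻¹) = s * ((a0 : Γ) * (b0 : Γ)) * s⁻¹ := by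
          group
        have h4 : s * (b0 : Γ) * s⁻¹ * (s * (a0 : Γ) * s⁻¹) = s * ((b0 : Γ) * (a0 : Γ)) * s⁻¹ := by
          group
        change s * (a0 : Γ) * s⁻¹ * (s * (b0 : Γ) * s⁻¹) = s * (b0 : Γ) * s⁻¹ * (s * (a0 : Γ) * s⁻¹)
        rw [h3, h4, h2]
      · exact comm_of_ne (minIn_cj hN.1 hT' s) (minIn_cj hN.1 hT' u) he a ha b hb
    have hN1 : ∀ a ∈ N, ∀ b ∈ N, a * b = b * a := by
      have hle : ∀ s : Γ, ∀ a ∈ cj s (T.map N.subtype), ∀ b ∈ N, a * b = b * a := by
        intro s a ha b hb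
        have h1 : N ≤ Subgroup.centralizer {a} := by
          rw [← iSup_cj hN hT']
          refine iSup_le fun u y hy => ?_
          rw [Subgroup.mem_centralizer_singleton_iff]
          exact (hcomm s u a ha y hy).symm
        exact (Subgroup.mem_centralizer_singleton_iff.1 (h1 hb)).symm
      intro a ha b hb
      have h1 : N ≤ Subgroup.centralizer {b} := by
        conv_lhs => rw [← iSup_cj hN hT']
        refine iSup_le fun u y hy => ?_
        rw [Subgroup.mem_centralizer_singleton_iff]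
        exact hle u y hy b hb
      exact Subgroup.mem_centralizer_singleton_iff.1 (h1 ha)
    refine hN.2.1 (hsol N hN.1 (isSolvable_of_comm fun a b => ?_))
    exact Subtype.ext (hN1 a a.2 b b.2)
  refine ⟨N, hN, T, hT, hna, ?_⟩
  -- the composition factor
  obtain ⟨T', hT'def⟩ : ∃ T' : Subgroup Γ, T' = T.map N.subtype := ⟨_, rfl⟩
  have hcard : Nat.card (MulAut T') = Nat.card (MulAut T) := by
    rw [hT'def]; exact card_mulAut_map N T
  have hnab : NonAb T' := by
    rw [hT'def]; exact nonAb_map N T hna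
  have hsub : T'.IsSubnormal := by
    rw [hT'def]
    haveI := hT.1
    haveI := hN.1
    exact Subgroup.IsSubnormal.trans' hT.1.isSubnormal hN.1.isSubnormal
  rw [← hT'def] at hT'
  haveI hTnt : Nontrivial T' := (Subgroup.nontrivial_iff_ne_bot T').2 hT'.2.1
  haveI hsimple : IsSimpleGroup T' := by
    refine ⟨fun R hR => ?_⟩
    have h1 : R.map T'.subtype ≤ T' := Subgroup.map_subtype_le R
    have h2 : ∀ t ∈ T', ∀ x ∈ R.map T'.subtype, t * x * t⁻¹ ∈ R.map T'.subtype := by
      rintro t ht _ ⟨x, hx, rfl⟩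
      exact ⟨⟨t, ht⟩ * x * (⟨t, ht⟩ : T')⁻¹, hR.conj_mem x hx ⟨t, ht⟩, rfl⟩
    rcases simple_of_min hN hT' h1 h2 with h | h
    · left
      exact (Subgroup.map_eq_bot_iff_of_injective R T'.subtype_injective).1 h
    · right
      rw [eq_top_iff]
      intro x _
      have h3 : (x : Γ) ∈ R.map T'.subtype := by
        rw [h]
        exact x.2
      obtain ⟨y, hy, e⟩ := h3
      have h4 : y = x := Subtype.ext e
      exact h4 ▸ hy
  obtain ⟨ψ, hψ⟩ : ∃ ψ : T'.comap φ →* T', ψ = φ.subgroupComap T' := ⟨_, rfl⟩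
  have hψs : Function.Surjective ψ := by
    rw [hψ]
    exact φ.subgroupComap_surjective_of_surjective T' hφ
  let e : (T'.comap φ) ⧸ ψ.ker ≃* T' := QuotientGroup.quotientKerEquivOfSurjective ψ hψs
  have hQ : IsSimpleGroup ((T'.comap φ) ⧸ ψ.ker) := e.isSimpleGroup
  -- the stabiliser
  obtain ⟨t, ht⟩ := exists_ne (1 : T')
  have hy : ∃ y : Y, t • y ≠ y := by
    by_contra hcon
    push Not at hcon
    apply ht
    apply Subtype.ext
    apply FaithfulSMul.eq_of_smul_eq_smul (α := Y)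
    intro y
    have := hcon y
    rw [Subgroup.coe_one, one_smul]
    exact this
  obtain ⟨y, hy⟩ := hy
  let P0 : Subgroup T' := MulAction.stabilizer T' y
  have hP0 : P0 ≠ ⊤ := by
    intro h
    have h1 : t ∈ P0 := by rw [h]; exact Subgroup.mem_top t
    exact hy (MulAction.mem_stabilizer_iff.1 h1)
  have hes : Function.Surjective e.toMonoidHom := e.surjective
  have hP : P0.comap e.toMonoidHom ≠ ⊤ := by
    intro h
    apply hP0
    rw [eq_top_iff]
    intro x _
    obtain ⟨z, rfl⟩ := hes x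
    have : z ∈ P0.comap e.toMonoidHom := by rw [h]; exact Subgroup.mem_top z
    exact this
  have hidx : (P0.comap e.toMonoidHom).index ≤ Nat.card Y := by
    rw [Subgroup.index_comap_of_surjective P0 hes, MulAction.index_stabilizer,
      ← Nat.card_coe_set_eq]
    exact Finite.card_subtype_le _
  have hnonab : ∃ a b : (T'.comap φ) ⧸ ψ.ker, a * b ≠ b * a := by
    obtain ⟨a, ha, b, hb, hab⟩ := hnab
    refine ⟨e.symm ⟨a, ha⟩, e.symm ⟨b, hb⟩, fun h => hab ?_⟩
    rw [← map_mul, ← map_mul] at h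
    exact congrArg Subtype.val (e.symm.injective h)
  have hfin := hG (T'.comap φ) (isSubnormal_comap φ hsub) ψ.ker hQ hnonab
    (P0.comap e.toMonoidHom) hP
  have hcard2 : Nat.card (MulAut ((T'.comap φ) ⧸ ψ.ker)) = Nat.card (MulAut T') :=
    Nat.card_congr (MulAut.congr e).toEquiv
  rw [← hcard, ← hcard2]
  exact hfin.trans (Nat.pow_le_pow_left hidx κ)

end Pool.Agent.Lib.MP_7ab245_nt.Solv.SX
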