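import Pool.Agent.Lib.MP_7ab245_nt.Solv.SX.Defs

set_option autoImplicit false

namespace Pool.Agent.Lib.MP_7ab245_nt.Solv.SX

/-- Transfer from subgroups of the group `N` to subgroups of `Γ`.
Proof: `T.map N.subtype`; a subgroup `M ≤ T.map N.subtype` of `Γ` normalised by `N` is `(M.subgroupOf N).map N.subtype`
and `M.subgroupOf N` is normal in `N`. -/
theorem minIn_map {Γ : Type*} [Group Γ] (N : Subgroup Γ) (T : Subgroup N) (hT : MinNormal T) :
    MinIn N (T.map N.subtype) := by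
  obtain ⟨hTn, hTb, hTm⟩ := hT
  refine ⟨Subgroup.map_subtype_le T, ?_, ?_, ?_⟩
  · intro h
    exact hTb ((Subgroup.map_eq_bot_iff_of_injective T N.subtype_injective).1 h)
  · rintro n hn _ ⟨t, ht, rfl⟩
    exact ⟨⟨n, hn⟩ * t * (⟨n, hn⟩ : N)⁻¹, hTn.conj_mem t ht ⟨n, hn⟩, rfl⟩
  · intro M hM hMn
    have hMN : M ≤ N := hM.trans (Subgroup.map_subtype_le T)
    have hMe : (M.subgroupOf N).map N.subtype = M := Subgroup.map_subgroupOf_eq_of_le hMN
    have h1 : (M.subgroupOf N).Normal := by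
      refine ⟨fun m hm n => ?_⟩
      rw [Subgroup.mem_subgroupOf] at hm ⊢
      exact hMn n.1 n.2 m.1 hm
    have h2 : M.subgroupOf N ≤ T := by
      intro m hm
      rw [Subgroup.mem_subgroupOf] at hm
      obtain ⟨t, ht, e⟩ := hM hm
      have : t = m := Subtype.ext e
      exact this ▸ ht
    rcases hTm _ h1 h2 with h | h
    · left
      rw [← hMe, h, Subgroup.map_bot]
    · right
      rw [← hMe, h]

/-- `T ≃* T.map N.subtype` -/
theorem card_mulAut_map {Γ : Type*} [Group Γ] (N : Subgroup Γ) (T : Subgroup N) :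
    Nat.card (MulAut (T.map N.subtype)) = Nat.card (MulAut T) := by
  exact (Nat.card_congr (MulAut.congr (T.equivMapOfInjective N.subtype N.subtype_injective)).toEquiv).symm

theorem nonAb_map {Γ : Type*} [Group Γ] (N : Subgroup Γ) (T : Subgroup N)
    (h : ¬ ∀ a b : T, a * b = b * a) : NonAb (T.map N.subtype) := by
  push Not at h
  obtain ⟨a, b, hab⟩ := h
  refine ⟨a.1.1, ⟨a.1, a.2, rfl⟩, b.1.1, ⟨b.1, b.2, rfl⟩, ?_⟩
  intro e
  exact hab (Subtype.ext (Subtype.ext e))

end Pool.Agent.Lib.MP_7ab245_nt.Solv.SX
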