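import Pool.Agent.Lib.MP_7ab245_nt.Solv.SX.Defs

set_option autoImplicit false

namespace Pool.Agent.Lib.MP_7ab245_nt.Solv.SX

/-! Conjugates: everything is transported by the automorphism `MulAut.conj s` of `Γ`. -/

private theorem conj_inj {Γ : Type*} [Group Γ] (s : Γ) :
    Function.Injective (MulAut.conj s).toMonoidHom := (MulAut.conj s).injective

theorem minIn_cj {Γ : Type*} [Group Γ] {N T : Subgroup Γ} (hN : N.Normal) (hT : MinIn N T)
    (s : Γ) : MinIn N (cj s T) := by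
  obtain ⟨hTN, hTb, hTn, hTm⟩ := hT
  refine ⟨?_, ?_, ?_, ?_⟩
  · intro x hx
    have h1 := hN.conj_mem _ (hTN (mem_cj'.1 hx)) s
    have h2 : s * (s⁻¹ * x * s) * s⁻¹ = x := by group
    rwa [h2] at h1
  · intro h
    exact hTb ((Subgroup.map_eq_bot_iff_of_injective T (conj_inj s)).1 h)
  · intro n hn t ht
    rw [mem_cj'] at ht ⊢
    have h1 := hTn (s⁻¹ * n * s) (by
      have := hN.conj_mem n hn s⁻¹
      rwa [inv_inv] at this) _ ht
    have h2 : s⁻¹ * n * s * (s⁻¹ * t * s) * (s⁻¹ * n * s)⁻¹ = s⁻¹ * (n * t * n⁻¹) * s := by group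
    rwa [h2] at h1
  · intro M hM hMn
    have e1 : M = cj s (cj s⁻¹ M) := by rw [← cj_mul, mul_inv_cancel, cj_one]
    have h3 : cj s⁻¹ M ≤ T := by
      intro y hy
      rw [mem_cj', inv_inv] at hy
      have h4 := mem_cj'.1 (hM hy)
      have h5 : s⁻¹ * (s * y * s⁻¹) * s = y := by group
      rwa [h5] at h4
    have h4 : ∀ n ∈ N, ∀ t ∈ cj s⁻¹ M, n * t * n⁻¹ ∈ cj s⁻¹ M := by
      intro n hn t ht
      rw [mem_cj', inv_inv] at ht ⊢
      have h1 := hMn (s * n * s⁻¹) (hN.conj_mem n hn s) _ ht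
      have h2 : s * n * s⁻¹ * (s * t * s⁻¹) * (s * n * s⁻¹)⁻¹ = s * (n * t * n⁻¹) * s⁻¹ := by group
      rwa [h2] at h1
    rcases hTm (cj s⁻¹ M) h3 h4 with h | h
    · left
      rw [e1, h]
      exact Subgroup.map_bot _
    · right
      rw [e1, h]

theorem nonAb_cj {Γ : Type*} [Group Γ] {T : Subgroup Γ} (hT : NonAb T) (s : Γ) :
    NonAb (cj s T) := by
  obtain ⟨a, ha, b, hb, hab⟩ := hT
  refine ⟨s * a * s⁻¹, mem_cj.2 ⟨a, ha, rfl⟩, s * b * s⁻¹, mem_cj.2 ⟨b, hb, rfl⟩, ?_⟩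
  intro e
  apply hab
  have h1 : s * a * s⁻¹ * (s * b * s⁻¹) = s * (a * b) * s⁻¹ := by group
  have h2 : s * b * s⁻¹ * (s * a * s⁻¹) = s * (b * a) * s⁻¹ := by group
  rw [h1, h2] at e
  exact mul_left_cancel (mul_right_cancel e)

theorem card_cj {Γ : Type*} [Group Γ] (T : Subgroup Γ) (s : Γ) :
    Nat.card (cj s T) = Nat.card T := by
  exact (Nat.card_congr (T.equivMapOfInjective (MulAut.conj s).toMonoidHom (conj_inj s)).toEquiv).symm

theorem card_mulAut_cj {Γ : Type*} [Group Γ] (T : Subgroup Γ) (s : Γ) :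
    Nat.card (MulAut (cj s T)) = Nat.card (MulAut T) := by
  exact (Nat.card_congr (MulAut.congr
    (T.equivMapOfInjective (MulAut.conj s).toMonoidHom (conj_inj s))).toEquiv).symm

theorem ncj_cj {Γ : Type*} [Group Γ] (T : Subgroup Γ) (s : Γ) : ncj (cj s T) = ncj T := by
  have h : (Set.range fun u : Γ => cj u (cj s T)) = Set.range fun u : Γ => cj u T := by
    ext M
    constructor
    · rintro ⟨u, rfl⟩
      exact ⟨u * s, cj_mul u s T⟩
    · rintro ⟨u, rfl⟩
      refine ⟨u * s⁻¹, ?_⟩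
      show cj (u * s⁻¹) (cj s T) = cj u T
      rw [← cj_mul, inv_mul_cancel_right]
  unfold ncj
  rw [h]

/-- the centralizer of the conjugate is the conjugate of the centralizer -/
theorem index_centralizer_cj {Γ : Type*} [Group Γ] (T : Subgroup Γ) (s : Γ) :
    (Subgroup.centralizer (cj s T : Set Γ)).index = (Subgroup.centralizer (T : Set Γ)).index := by
  have h : Subgroup.centralizer (cj s T : Set Γ) =
      (Subgroup.centralizer (T : Set Γ)).map (MulAut.conj s : Γ ≃* Γ).toMonoidHom := by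
    ext x
    change x ∈ Subgroup.centralizer (cj s T : Set Γ) ↔ x ∈ cj s (Subgroup.centralizer (T : Set Γ))
    rw [mem_cj', Subgroup.mem_centralizer_iff, Subgroup.mem_centralizer_iff]
    constructor
    · intro hx t ht
      have h1 := hx (s * t * s⁻¹) (mem_cj.2 ⟨t, ht, rfl⟩)
      calc t * (s⁻¹ * x * s) = s⁻¹ * (s * t * s⁻¹ * x) * s := by group
        _ = s⁻¹ * (x * (s * t * s⁻¹)) * s := by rw [h1]
        _ = s⁻¹ * x * s * t := by group
    · intro hx t ht
      have h1 := hx (s⁻¹ * t * s) (mem_cj'.1 ht)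
      calc t * x = s * (s⁻¹ * t * s * (s⁻¹ * x * s)) * s⁻¹ := by group
        _ = s * (s⁻¹ * x * s * (s⁻¹ * t * s)) * s⁻¹ := by rw [h1]
        _ = x * t := by group
  rw [h]
  exact Subgroup.index_map_equiv _ (MulAut.conj s)

end Pool.Agent.Lib.MP_7ab245_nt.Solv.SX
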