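import Pool.Agent.Lib.MP_7ab245_nt.Solv.SX.X02
import Pool.Agent.Lib.MP_7ab245_nt.Solv.SX.X03

set_option autoImplicit false

namespace Pool.Agent.Lib.MP_7ab245_nt.Solv.SX

private theorem two_pow_sup_le {Γ : Type*} [Group Γ] [Finite Γ] {N : Subgroup Γ}
    (s : Finset (Subgroup Γ)) : (∀ T' ∈ s, MinIn N T' ∧ NonAb T') →
    2 ^ s.card ≤ Nat.card (s.sup id : Subgroup Γ) := by
  classical
  induction s using Finset.induction_on with
  | empty => intro _; simp
  | insert T' s hT's ih =>
    intro hs
    have ih' := ih fun T'' h => hs T'' (Finset.mem_insert_of_mem h)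
    obtain ⟨hmin, a, ha, b, hb, hab⟩ := hs T' (Finset.mem_insert_self _ _)
    rw [Finset.card_insert_of_notMem hT's, Finset.sup_insert, id_eq]
    set K : Subgroup Γ := s.sup id with hK
    have hnle : ¬ T' ≤ K := by
      intro hle
      have h1 : K ≤ Subgroup.centralizer (T' : Set Γ) := by
        rw [hK]
        refine Finset.sup_le fun T'' h'' => ?_
        have hne : T' ≠ T'' := fun e => hT's (e ▸ h'')
        have hc := comm_of_ne hmin (hs T'' (Finset.mem_insert_of_mem h'')).1 hne
        intro y hy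
        rw [Subgroup.mem_centralizer_iff]
        intro z hz
        exact hc z hz y hy
      have h2 := Subgroup.mem_centralizer_iff.1 (h1 (hle hb)) a ha
      exact hab h2
    have h3 : Nat.card K ∣ Nat.card (T' ⊔ K : Subgroup Γ) := Subgroup.card_dvd_of_le le_sup_right
    obtain ⟨m, hm⟩ := h3
    have hpos : 0 < Nat.card (T' ⊔ K : Subgroup Γ) := Nat.card_pos
    have hm2 : 2 ≤ m := by
      by_contra hlt
      have h4 : m = 0 ∨ m = 1 := by omega
      rcases h4 with rfl | rfl
      · simp at hm
        omega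
      · rw [mul_one] at hm
        have h5 : K = T' ⊔ K := Subgroup.eq_of_le_of_card_ge le_sup_right hm.le
        exact hnle (h5 ▸ le_sup_left)
    rw [hm, pow_succ]
    exact Nat.mul_le_mul ih' hm2

/-- `2 ^ l ≤ |N|`.  By induction on a finset `s` of subgroups `T'` with `MinIn N T'`, `NonAb T'`: `2 ^ s.card ≤ Nat.card (⨆ T' ∈ s, T')`.
Step: if `T' ∉ s` and `T' ≤ ⨆ s` then `T'` commutes with every element of `s`, hence with `⨆ s ≥ T'`, so `T'` is
abelian; so `⨆ s < ⨆ (insert T' s)` and the order at least doubles (Lagrange). -/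
theorem two_pow_ncj_le {Γ : Type*} [Group Γ] [Finite Γ] {N T : Subgroup Γ} (hN : N.Normal)
    (hT : MinIn N T) (hna : NonAb T) : 2 ^ ncj T ≤ Nat.card N := by
  classical
  have hfin : (Set.range fun s : Γ => cj s T).Finite := Set.finite_range _
  have hcard : ncj T = hfin.toFinset.card := by
    unfold ncj
    rw [Nat.card_coe_set_eq, Set.ncard_eq_toFinset_card _ hfin]
  have hmem : ∀ T' ∈ hfin.toFinset, MinIn N T' ∧ NonAb T' := by
    intro T' hT'
    obtain ⟨s, rfl⟩ := hfin.mem_toFinset.1 hT'
    exact ⟨minIn_cj hN hT s, nonAb_cj hna s⟩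
  rw [hcard]
  refine (two_pow_sup_le hfin.toFinset hmem).trans (Subgroup.card_le_of_le ?_)
  refine Finset.sup_le fun T' hT' => ?_
  exact (hmem T' hT').1.1

end Pool.Agent.Lib.MP_7ab245_nt.Solv.SX
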