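import Pool.Agent.Lib.MP_7ab245_nt.Solv.SX.Defs

set_option autoImplicit false

namespace Pool.Agent.Lib.MP_7ab245_nt.Solv.SX

private theorem mul_cancel_det {d : ℕ} {B S : Matrix (Fin d) (Fin d) ℤ} (hS : S.det ≠ 0)
    (h : B * S = 0) : B = 0 := by
  have h1 : B * S * S.adjugate = 0 := by rw [h, Matrix.zero_mul]
  rw [Matrix.mul_assoc, Matrix.mul_adjugate, Matrix.mul_smul, Matrix.mul_one] at h1
  exact (smul_eq_zero.mp h1).resolve_left hS

private theorem det_ne_of_map {d : ℕ} {S : Matrix (Fin d) (Fin d) ℤ} {c : ZMod 3} (hc : c ≠ 0)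
    (h : (Int.castRingHom (ZMod 3)).mapMatrix S = c • (1 : Matrix (Fin d) (Fin d) (ZMod 3))) :
    S.det ≠ 0 := by
  have : Fact (Nat.Prime 3) := ⟨Nat.prime_three⟩
  intro h0
  have h1 := RingHom.map_det (Int.castRingHom (ZMod 3)) S
  rw [h0, h, Matrix.det_smul, Matrix.det_one, mul_one, map_zero] at h1
  exact pow_ne_zero _ hc h1.symm

private theorem prime_case {d : ℕ} (A : Matrix (Fin d) (Fin d) ℤ) {q : ℕ} (hq : q.Prime)
    (hA : A ^ q = 1) (B : Matrix (Fin d) (Fin d) ℤ) (hB : A = 1 + (3 : ℤ) • B) : A = 1 := by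
  have hmap : (Int.castRingHom (ZMod 3)).mapMatrix A = 1 := by
    rw [hB, map_add, map_one]
    have : (Int.castRingHom (ZMod 3)).mapMatrix ((3 : ℤ) • B) = 0 := by
      ext i j
      simp only [RingHom.mapMatrix_apply, Matrix.map_apply, Matrix.smul_apply, smul_eq_mul,
        map_mul, Matrix.zero_apply]
      have : (Int.castRingHom (ZMod 3)) 3 = 0 := by decide
      rw [this, zero_mul]
    rw [this, add_zero]
  have hgeom : (A - 1) * (∑ i ∈ Finset.range q, A ^ i) = 0 := by
    rw [mul_geom_sum, hA, sub_self]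
  by_cases h3 : q = 3
  · subst h3
    have hS : (∑ i ∈ Finset.range 3, A ^ i) = (3 : ℤ) • (1 + (3 : ℤ) • (B + B * B)) := by
      rw [hB]
      simp only [Finset.sum_range_succ, Finset.range_zero, Finset.sum_empty, pow_zero, pow_one,
        zero_add, sq]
      simp only [mul_add, add_mul, mul_one, one_mul, smul_add, Matrix.smul_mul, Matrix.mul_smul,
        smul_smul]
      module
    rw [hS, Matrix.mul_smul] at hgeom
    have h1 := (smul_eq_zero.mp hgeom).resolve_left (by norm_num : (3 : ℤ) ≠ 0)
    have hdet : (1 + (3 : ℤ) • (B + B * B)).det ≠ 0 := by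
      apply det_ne_of_map (c := 1) one_ne_zero
      rw [map_add, map_one, one_smul]
      have : (Int.castRingHom (ZMod 3)).mapMatrix ((3 : ℤ) • (B + B * B)) = 0 := by
        ext i j
        simp only [RingHom.mapMatrix_apply, Matrix.map_apply, Matrix.smul_apply, smul_eq_mul,
          map_mul, Matrix.zero_apply]
        have : (Int.castRingHom (ZMod 3)) 3 = 0 := by decide
        rw [this, zero_mul]
      rw [this, add_zero]
    exact sub_eq_zero.mp (mul_cancel_det hdet h1)
  · have hdet : (∑ i ∈ Finset.range q, A ^ i).det ≠ 0 := by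
      apply det_ne_of_map (c := (q : ZMod 3))
      · intro h0
        rw [ZMod.natCast_eq_zero_iff] at h0
        exact h3 ((Nat.prime_dvd_prime_iff_eq Nat.prime_three hq).mp h0).symm
      · rw [map_sum]
        simp only [map_pow, hmap, one_pow, Finset.sum_const, Finset.card_range]
        ext i j
        simp [Matrix.smul_apply]
    exact sub_eq_zero.mp (mul_cancel_det hdet hgeom)

/-- Congruence subgroup mod 3 is torsion-free.  Reduce to `A ^ q = 1`, `q` prime (replace `A` by a power of prime order if `A ≠ 1`).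
`A = 1 + B`, `B ≠ 0`; let `3 ^ e`, `e ≥ 1`, be the largest power of 3 dividing all entries of `B`.
`0 = ∑_{j=1}^q (q choose j) B ^ j`.  If `q ≠ 3`: `q B` is divisible by `3 ^ (2 e)`, so `B` is.  If `q = 3`: `3 B = -3 B² - B³` is divisible by
`3 ^ (2 e + 1)`, so `B` is divisible by `3 ^ (2 e)`.  Both contradict the choice of `e`. -/
theorem eq_one_of_mod_three {d : ℕ} (A : Matrix (Fin d) (Fin d) ℤ) {k : ℕ} (hk : 0 < k)
    (hA : A ^ k = 1) (h3 : ∀ i j, (3 : ℤ) ∣ A i j - (1 : Matrix (Fin d) (Fin d) ℤ) i j) : A = 1 := by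
  induction k using Nat.strong_induction_on with
  | _ k ih =>
    by_cases hk1 : k = 1
    · rw [hk1, pow_one] at hA; exact hA
    obtain ⟨q, hq, m, rfl⟩ := Nat.exists_prime_and_dvd hk1
    have hm : 0 < m := Nat.pos_of_mul_pos_left hk |> fun _ => by
      rcases Nat.eq_zero_or_pos m with h | h
      · simp [h] at hk
      · exact h
    have hlt : m < q * m := by
      have := hq.two_le
      nlinarith
    -- `A = 1 + 3 B`
    have hmod : ∀ n : ℕ, ∃ B : Matrix (Fin d) (Fin d) ℤ, A ^ n = 1 + (3 : ℤ) • B := by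
      choose f hf using h3
      intro n
      induction n with
      | zero => exact ⟨0, by simp⟩
      | succ n ihn =>
        obtain ⟨B, hB⟩ := ihn
        have hA' : A = 1 + (3 : ℤ) • (Matrix.of fun i j => f i j) := by
          ext i j
          have := hf i j
          simp only [Matrix.add_apply, Matrix.smul_apply, Matrix.of_apply, smul_eq_mul]
          linarith
        refine ⟨B * A + (Matrix.of fun i j => f i j), ?_⟩
        rw [pow_succ, hB, add_mul, one_mul, Matrix.smul_mul, smul_add]
        conv_lhs => rw [hA']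
        conv_rhs => rw [hA']
        module
    obtain ⟨B, hB⟩ := hmod m
    have hAm : A ^ m = 1 := by
      refine prime_case (A ^ m) hq ?_ B hB
      rw [← pow_mul, mul_comm, hA]
    exact ih m hlt hm hAm

end Pool.Agent.Lib.MP_7ab245_nt.Solv.SX
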