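import Pool.Agent.Lib.MP_7ab245_nt.Solv.SX.Defs

set_option autoImplicit false

namespace Pool.Agent.Lib.MP_7ab245_nt.Solv.SX

section x16

universe u v

/-- the restriction of a representation to an invariant subspace -/
private def x16sub {E : Type u} {U : Type v} [Group E] [AddCommGroup U] [Module ℚ U]
    (σ : Representation ℚ E U) (V : Submodule ℚ U) (hV : ∀ g, ∀ v ∈ V, σ g v ∈ V) :
    Representation ℚ E V where
  toFun g := (σ g).restrict (hV g)
  map_one' := by
    ext v
    simp
  map_mul' g h := by
    ext v
    simp

private theorem x16sub_apply {E : Type u} {U : Type v} [Group E] [AddCommGroup U] [Module ℚ U]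
    (σ : Representation ℚ E U) (V : Submodule ℚ U) (hV : ∀ g, ∀ v ∈ V, σ g v ∈ V) (g : E) (v : V) :
    ((x16sub σ V hV g v : V) : U) = σ g v := rfl

/-- the norm of an element whose `p`-th power is `1` and which has no fixed vectors is `0` -/
private theorem x16_norm {U : Type v} [AddCommGroup U] [Module ℚ U] (x : Module.End ℚ U) (p : ℕ)
    (hx : x ^ p = 1) (hinj : ∀ v, x v = v → v = 0) : ∑ i ∈ Finset.range p, x ^ i = 0 := by
  have h1 : (x - 1) * ∑ i ∈ Finset.range p, x ^ i = 0 := by
    rw [mul_geom_sum, hx, sub_self]
  ext v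
  have h2 := LinearMap.congr_fun h1 v
  rw [Module.End.mul_apply, LinearMap.sub_apply, Module.End.one_apply, LinearMap.zero_apply,
    sub_eq_zero] at h2
  rw [LinearMap.zero_apply]
  exact hinj _ h2

private theorem x16_key (p : ℕ) (hp : p.Prime) (hp2 : p ≠ 2) (n : ℕ) :
    ∀ (E : Type u) (U : Type v) [Group E] [Finite E] [AddCommGroup U] [Module ℚ U]
    [FiniteDimensional ℚ U] (_ : ∀ a b : E, a * b = b * a)
    (_ : ∀ e : E, e ^ p = 1) (σ : Representation ℚ E U) (_ : Function.Injective σ)
    (_ : Module.finrank ℚ U = n), (Nat.card E) ^ 2 ≤ p ^ n := by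
  induction n using Nat.strong_induction_on with
  | _ n ih =>
  intro E U _ _ _ _ _ hcomm hE σ hσ hn
  by_cases htriv : ∀ e : E, e = 1
  · have : Nat.card E = 1 := by
      rw [Nat.card_eq_one_iff_exists]
      exact ⟨1, htriv⟩
    rw [this, one_pow]
    exact Nat.one_le_pow _ _ hp.pos
  push Not at htriv
  obtain ⟨e₀, he₀⟩ := htriv
  have hσ1 : ∀ g, σ g = 1 → g = 1 := fun g hg => hσ (by rw [hg, map_one])
  have hpow : ∀ g : E, (σ g) ^ p = 1 := fun g => by rw [← map_pow, hE, map_one]
  by_cases hA : ∃ e : E, e ≠ 1 ∧ ∃ v : U, v ≠ 0 ∧ σ e v = v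
  · -- a nontrivial element with a fixed vector: split
    obtain ⟨e, he, v₀, hv₀, hev₀⟩ := hA
    set x : Module.End ℚ U := σ e with hx
    set V : Submodule ℚ U := LinearMap.ker (x - 1) with hVdef
    set K : Submodule ℚ U := LinearMap.range (x - 1) with hKdef
    have hxV : ∀ v ∈ V, x v = v := by
      intro v hv
      rw [hVdef, LinearMap.mem_ker, LinearMap.sub_apply, Module.End.one_apply, sub_eq_zero] at hv
      exact hv
    have hVx : ∀ v, x v = v → v ∈ V := by
      intro v hv
      rw [hVdef, LinearMap.mem_ker, LinearMap.sub_apply, Module.End.one_apply, sub_eq_zero]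
      exact hv
    have hcommσ : ∀ g, σ g * x = x * σ g := fun g => by
      rw [hx, ← map_mul, ← map_mul, hcomm]
    have hVinv : ∀ g, ∀ v ∈ V, σ g v ∈ V := by
      intro g v hv
      apply hVx
      have h1 := LinearMap.congr_fun (hcommσ g) v
      rw [Module.End.mul_apply, Module.End.mul_apply, hxV v hv] at h1
      exact h1.symm
    have hKinv : ∀ g, ∀ v ∈ K, σ g v ∈ K := by
      rintro g v ⟨w, rfl⟩
      refine ⟨σ g w, ?_⟩
      have h1 := LinearMap.congr_fun (hcommσ g) w
      rw [Module.End.mul_apply, Module.End.mul_apply] at h1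
      rw [LinearMap.sub_apply, LinearMap.sub_apply, map_sub, Module.End.one_apply,
        Module.End.one_apply, h1]
    have hdisj : Disjoint V K := by
      rw [Submodule.disjoint_def]
      rintro v hv ⟨w, rfl⟩
      have h1 : (∑ i ∈ Finset.range p, x ^ i) * (x - 1) = 0 := by
        rw [geom_sum_mul, hx, hpow, sub_self]
      have h2 := LinearMap.congr_fun h1 w
      rw [Module.End.mul_apply, LinearMap.zero_apply, LinearMap.sum_apply] at h2
      have h3 : ∀ i : ℕ, (x ^ i) ((x - 1) w) = (x - 1) w := by
        intro i
        induction i with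
        | zero => simp
        | succ i ihi =>
          rw [pow_succ, Module.End.mul_apply, hxV _ hv]
          exact ihi
      rw [Finset.sum_congr rfl fun i _ => h3 i, Finset.sum_const, Finset.card_range] at h2
      have h4 : (p : ℚ) • ((x - 1) w) = 0 := by
        rw [Nat.cast_smul_eq_nsmul]
        exact h2
      rcases smul_eq_zero.1 h4 with h5 | h5
      · exact absurd h5 (by exact_mod_cast hp.ne_zero)
      · exact h5
    have hdim : Module.finrank ℚ K + Module.finrank ℚ V = n := by
      rw [← hn]
      exact LinearMap.finrank_range_add_finrank_ker (x - 1)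
    have hsup : V ⊔ K = ⊤ := by
      apply Submodule.eq_top_of_finrank_eq
      have h1 := Submodule.finrank_sup_add_finrank_inf_eq V K
      rw [disjoint_iff.1 hdisj, finrank_bot, add_zero] at h1
      rw [h1, hn]
      omega
    have hV0 : 0 < Module.finrank ℚ V := by
      rw [Module.finrank_pos_iff]
      exact ⟨⟨v₀, hVx v₀ hev₀⟩, 0, fun h => hv₀ (congrArg Subtype.val h)⟩
    have hK0 : 0 < Module.finrank ℚ K := by
      rw [Nat.pos_iff_ne_zero]
      intro h0
      rw [Submodule.finrank_eq_zero] at h0
      have h1 : x - 1 = 0 := LinearMap.range_eq_bot.1 h0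
      exact he (hσ1 e (sub_eq_zero.1 h1))
    set σK := x16sub σ K hKinv with hσK
    set σV := x16sub σ V hVinv with hσV
    -- the action on `V` of the kernel
    have hinj1 : Function.Injective (σV.comp (MonoidHom.ker σK).subtype) := by
      rw [injective_iff_map_eq_one]
      rintro ⟨g, hg⟩ hgV
      rw [MonoidHom.comp_apply] at hgV
      have h1 : σ g = 1 := by
        ext w
        have hw : w ∈ V ⊔ K := by rw [hsup]; trivial
        obtain ⟨a, ha, b, hb, rfl⟩ := Submodule.mem_sup.1 hw
        have h2 : σ g a = a := by
          have := congrArg Subtype.val (LinearMap.congr_fun hgV ⟨a, ha⟩)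
          exact this
        have h3 : σ g b = b := by
          have := congrArg Subtype.val (LinearMap.congr_fun (MonoidHom.mem_ker.1 hg) ⟨b, hb⟩)
          exact this
        rw [map_add, h2, h3]
        simp
      exact Subtype.ext (hσ1 g h1)
    have hinj2 : Function.Injective (QuotientGroup.lift (MonoidHom.ker σK) σK le_rfl) := by
      rw [injective_iff_map_eq_one]
      intro q
      refine QuotientGroup.induction_on q fun g hg => ?_
      rw [QuotientGroup.lift_mk] at hg
      exact (QuotientGroup.eq_one_iff g).2 hg
    have hc1 := ih (Module.finrank ℚ V) (by omega) (MonoidHom.ker σK) V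
      (fun a b => Subtype.ext (hcomm a b)) (fun a => Subtype.ext (hE a)) _ hinj1 rfl
    have hc2 := ih (Module.finrank ℚ K) (by omega) (E ⧸ MonoidHom.ker σK) K
      (fun a b => by
        refine QuotientGroup.induction_on a fun a => QuotientGroup.induction_on b fun b => ?_
        rw [← QuotientGroup.mk_mul, ← QuotientGroup.mk_mul, hcomm])
      (fun a => by
        refine QuotientGroup.induction_on a fun a => ?_
        rw [← QuotientGroup.mk_pow, hE, QuotientGroup.mk_one]) _ hinj2 rfl
    rw [Subgroup.card_eq_card_quotient_mul_card_subgroup (MonoidHom.ker σK), mul_pow, ← hdim,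
      pow_add]
    exact Nat.mul_le_mul hc2 hc1
  · -- all nontrivial elements have no fixed vectors
    push Not at hA
    have hfix : ∀ g : E, g ≠ 1 → ∀ v, σ g v = v → v = 0 := by
      intro g hg v hv
      by_contra h0
      exact hA g hg v h0 hv
    have hnorm : ∀ g : E, g ≠ 1 → ∑ i ∈ Finset.range p, (σ g) ^ i = 0 := fun g hg =>
      x16_norm _ p (hpow g) (hfix g hg)
    have hnt : Nontrivial U := by
      by_contra hnn
      rw [not_nontrivial_iff_subsingleton] at hnn
      exact he₀ (hσ1 e₀ (LinearMap.ext fun v => Subsingleton.elim _ _))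
    have : Fact p.Prime := ⟨hp⟩
    have hord : orderOf e₀ = p := orderOf_eq_prime (hE e₀) he₀
    have hcyc : ∀ e' : E, ∃ k < p, e' * e₀ ^ k = 1 := by
      intro e'
      by_contra hcon
      push Not at hcon
      have h1 : ∑ k ∈ Finset.range p, ∑ i ∈ Finset.range p, (σ (e' * e₀ ^ k)) ^ i = 0 :=
        Finset.sum_eq_zero fun k hk => hnorm _ (hcon k (Finset.mem_range.1 hk))
      rw [Finset.sum_comm] at h1
      have h2 : ∀ i ∈ Finset.range p, ∑ k ∈ Finset.range p, (σ (e' * e₀ ^ k)) ^ i =
          if i = 0 then (p : Module.End ℚ U) else 0 := by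
        intro i hi
        rw [Finset.mem_range] at hi
        split_ifs with h0
        · subst h0
          simp
        · have h3 : ∀ k ∈ Finset.range p, (σ (e' * e₀ ^ k)) ^ i =
              (σ e') ^ i * (σ (e₀ ^ i)) ^ k := by
            intro k _
            rw [← map_pow, ← map_pow, ← map_pow, ← map_mul]
            congr 1
            have hc : Commute e' (e₀ ^ k) := hcomm _ _
            rw [hc.mul_pow, ← pow_mul, ← pow_mul, mul_comm k i]
          rw [Finset.sum_congr rfl h3, ← Finset.mul_sum, hnorm, mul_zero]
          exact pow_ne_one_of_lt_orderOf h0 (by rw [hord]; exact hi)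
      rw [Finset.sum_congr rfl h2, Finset.sum_ite_eq' (Finset.range p) 0, if_pos] at h1
      · obtain ⟨v, hv⟩ := exists_ne (0 : U)
        have h4 := LinearMap.congr_fun h1 v
        rw [LinearMap.zero_apply] at h4
        have h5 : ((p : Module.End ℚ U)) v = (p : ℚ) • v := by
          rw [Nat.cast_smul_eq_nsmul]
          simp
        rw [h5] at h4
        rcases smul_eq_zero.1 h4 with h6 | h6
        · exact hp.ne_zero (by exact_mod_cast h6)
        · exact hv h6
      · rw [Finset.mem_range]
        exact hp.pos
    have hcard : Nat.card E ≤ p := by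
      have h1 : ∀ e' : E, ∃ k : Fin p, e' * e₀ ^ (k : ℕ) = 1 := fun e' => by
        obtain ⟨k, hk, h⟩ := hcyc e'
        exact ⟨⟨k, hk⟩, h⟩
      choose f hf using h1
      have hfi : Function.Injective f := by
        intro a b hab
        have h2 := hf a
        rw [hab, ← hf b] at h2
        exact mul_right_cancel h2
      have := Nat.card_le_card_of_injective f hfi
      rwa [Nat.card_fin] at this
    have hn2 : 2 ≤ n := by
      by_contra hlt
      have hn0 : 0 < n := by
        rw [← hn]
        exact Module.finrank_pos
      have hn1 : Module.finrank ℚ U = 1 := by omega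
      obtain ⟨v, hv, hspan⟩ := finrank_eq_one_iff'.1 hn1
      obtain ⟨c, hc⟩ := hspan (σ e₀ v)
      have h1 : ∀ i : ℕ, ((σ e₀) ^ i) v = c ^ i • v := by
        intro i
        induction i with
        | zero => simp
        | succ i ihi =>
          rw [pow_succ, Module.End.mul_apply, ← hc, map_smul, ihi, smul_smul, pow_succ, mul_comm]
      have h2 := h1 p
      rw [hpow, Module.End.one_apply] at h2
      have h3 : (c ^ p - 1) • v = 0 := by
        rw [sub_smul, one_smul, ← h2, sub_self]
      rcases smul_eq_zero.1 h3 with h4 | h4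
      · have h5 : c ^ p = 1 := sub_eq_zero.1 h4
        have hodd : Odd p := hp.odd_of_ne_two hp2
        have h6 : c = 1 := by
          apply hodd.pow_injective
          simpa using h5
        rw [h6, one_smul] at hc
        exact hv (hfix e₀ he₀ v hc.symm)
      · exact hv h4
    calc Nat.card E ^ 2 ≤ p ^ 2 := Nat.pow_le_pow_left hcard 2
      _ ≤ p ^ n := Nat.pow_le_pow_right hp.pos hn2

end x16

/-- An elementary abelian group of order `p ^ c`, `p` odd, acting faithfully on a rational vector space `U` of finite dimension: `2 c ≤ dim U`.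
Induction on `c` (or on the dimension).  `c ≥ 1`: by Maschke `U` is a direct sum of simple `ℚ[E]`-modules; let `U₁` be a simple submodule with nontrivial action, `U = U₁ ⊕ U'` (`U'` a
submodule), `E₁` the kernel of the action on `U₁`.  `E/E₁` acts faithfully on the simple module `U₁`; the subalgebra of `End U₁` generated by `E` is a finite-dimensional
commutative algebra with a faithful simple module, so a field (or: `End_{ℚ[E]} U₁` is a division ring and `E/E₁` is a finite subgroup of the units of a field), so `E/E₁` is
cyclic, of order `p`.  `dim U₁ ≥ 2`: a 1-dimensional rational representation has values `±1`, `p` is odd.  `E₁` (order `p ^ (c-1)`) acts faithfully on `U'`: `2 (c-1) ≤ dim U'`.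
Alternative: joint eigenspaces over `ℂ` (or over a splitting field): the set `X` of characters occurring in `U ⊗ ℂ` is closed under inversion and generates the dual (faithfulness), so it
contains a basis `χ_1..χ_c` of the dual (an `F_p`-space), and the `2c` characters `χ_i^{±1}` are distinct.  Alternative: idempotents `e_F - e_E`, `F` of index `p`. -/
theorem two_mul_le_finrank {E U : Type*} [Group E] [Finite E] [AddCommGroup U] [Module ℚ U]
    [FiniteDimensional ℚ U] (p c : ℕ) (hp : p.Prime) (hp2 : p ≠ 2) (hcomm : ∀ a b : E, a * b = b * a)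
    (hE : ∀ e : E, e ^ p = 1)
    (hc : Nat.card E = p ^ c) (σ : Representation ℚ E U) (hσ : Function.Injective σ) :
    2 * c ≤ Module.finrank ℚ U := by
  have h1 := x16_key p hp hp2 (Module.finrank ℚ U) E U hcomm hE σ hσ rfl
  rw [hc, ← pow_mul] at h1
  have h2 := (Nat.pow_le_pow_iff_right hp.one_lt).1 h1
  omega

end Pool.Agent.Lib.MP_7ab245_nt.Solv.SX
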